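import Pool.Agent.H979R2.NP.Stubs
import Pool.Agent.H977R3.Cov

/-!
COV: the relation between pivots is a union of few nested relations.
-/

set_option autoImplicit false

namespace Pool.Agent.H979R2.NP

open Pool.Agent.H977R3 (Wk rf tm LS CT rf_le rf_gt tm_le tm_mid tm_gt rf_rf rf_tm_left rf_tm_right
  tm_tm tm_self)

theorem p_COV (L : PL) : St_COV L := by
  classical
  intro N l ta td w₀ w
  by_cases hne : Cl L N ta td w₀ w
  swap
  · refine ⟨fun _ => (0, 0, false, false), ?_⟩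
    intro p hp
    exfalso
    unfold RRA at hp
    rw [Finset.mem_filter] at hp
    exact hne hp.2.1
  have hmem : ∀ t s, (t, s) ∈ RRA L N l ta td w₀ w ↔
      (GFA L.up N l ta td w t ∧ IsVA L N l ta td w₀ (rf w t)) ∧
      (GBA L.up N l ta td w s ∧ IsVA L N l ta td w₀ (rf w s)) ∧
      t ≤ s ∧ (∀ i, t < i → i ≤ s → (w i).1 < 2 * (w t).1 - (w ta).1) ∧
      (∀ i, t ≤ i → i ≤ s → 2 * (w s).1 - (w td).1 ≤ (w i).1) := by
    intro t s
    unfold RRA
    rw [Finset.mem_filter, Finset.mem_product, Finset.mem_range, Finset.mem_range]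
    unfold QPA
    constructor
    · rintro ⟨-, -, h, h2, h3⟩
      exact ⟨⟨h.gf, h2⟩, ⟨h.gb, h3⟩, h.le, h.c1, h.c2⟩
    · rintro ⟨⟨h1, h2⟩, ⟨h3, h4⟩, h5, h6, h7⟩
      have htd : td < N := hne.ctd.1
      have e1 := h1.h2
      have e2 := h3.h2
      exact ⟨⟨by simp only; omega, by simp only; omega⟩, hne, ⟨h1, h3, h5, h6, h7⟩, h2, h4⟩
  obtain ⟨col, hcol⟩ := Pool.Agent.H977R3.cov_core (fun i => (w i).1) (w ta).1 (w td).1 l N ta td
    (fun t => GFA L.up N l ta td w t ∧ IsVA L N l ta td w₀ (rf w t))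
    (fun s => GBA L.up N l ta td w s ∧ IsVA L N l ta td w₀ (rf w s))
    (fun t s => (t, s) ∈ RRA L N l ta td w₀ w)
    (fun t s => hmem t s) (fun t h => h.1.h1) (fun t h => h.1.mx) (fun t h => h.1.win) rfl
    (fun i hi => by have := hne.cta.2.2 i hi; omega)
    (fun s h => h.1.h2) (fun s h => h.1.mn) (fun s h => h.1.win) rfl hne.ctd.1.le
  refine ⟨col, ?_⟩
  rintro ⟨t, p2⟩ hp ⟨u, q2⟩ hq hc
  exact hcol (t, p2) hp (u, q2) hq hc

end Pool.Agent.H979R2.NP
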