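import Pool.Agent.H979R2.NP.Stubs
import Pool.Agent.H982R3.RPlan

/-!
The diagonal lattice: `ℤ²` in the coordinates `(x + y, x - y)`.
-/

set_option autoImplicit false

namespace Pool.Agent.H979R2.NP

open Pool.Agent.H977R3 (Wk rf tm LS CT rf_le rf_gt tm_le tm_mid tm_gt rf_rf rf_tm_left rf_tm_right
  tm_tm tm_self)

/-- steps `(±1, ±1)` -/
def dia_adj (p q : ℤ × ℤ) : Prop :=
  (q.1 = p.1 + 1 ∨ q.1 = p.1 - 1) ∧ (q.2 = p.2 + 1 ∨ q.2 = p.2 - 1)

/-- the walk goes upwards before and after time `t` -/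
def dia_up (w : Wk) (t : ℕ) : Prop :=
  1 ≤ t ∧ (w (t - 1)).2 < (w t).2 ∧ (w t).2 < (w (t + 1)).2

/-- the triangular lattice as an instance -/
@[reducible] def dia_lat : H982.Lat := { kind := .tri }

theorem dia_saw {N : ℕ} {w : Wk} (h : SawA dia_adj N w) : @H982F.Saw dia_lat N w := by
  let _ : H982.Lat := dia_lat
  refine ⟨h.zero, ?_, h.inj, h.const, ?_⟩
  · intro i hi
    have h1 := h.adj i hi
    unfold dia_adj at h1
    change ((w (i + 1)).1 = (w i).1 + 1 ∧ (w (i + 1)).2 = (w i).2 + 1) ∨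
      ((w (i + 1)).1 = (w i).1 + 1 ∧ (w (i + 1)).2 = (w i).2 - 1) ∨
      ((w (i + 1)).1 = (w i).1 - 1 ∧ (w (i + 1)).2 = (w i).2 + 1) ∨
      ((w (i + 1)).1 = (w i).1 - 1 ∧ (w (i + 1)).2 = (w i).2 - 1) ∨
      ((w (i + 1)).1 = (w i).1 ∧ (w (i + 1)).2 = (w i).2 + 2) ∨
      ((w (i + 1)).1 = (w i).1 ∧ (w (i + 1)).2 = (w i).2 - 2)
    omega
  · exact trivial

theorem dia_br {N : ℕ} {w : Wk} (h : BrA dia_adj N w) : @H982F.FBr dia_lat N w := by
  let _ : H982.Lat := dia_lat
  exact ⟨dia_saw h.saw, h.pos, h.le⟩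

theorem dia_upU {w : Wk} {t : ℕ} (h : dia_up w t) : H982F.Up w t :=
  ⟨h.1, h.2.1, Or.inr h.2.2⟩

theorem dia_tm_snd (w : Wk) (t t' i : ℕ) (h : t < t') : (tm w t t' i).2 = (w i).2 := by
  unfold tm Pool.Agent.H977R2.zf
  split_ifs <;> rfl

theorem dia_planar : PlanarStmt dia_adj dia_up := by
  let _ : H982.Lat := dia_lat
  intro N l ta td t t' w hbr hta htd hl1 hl2 h htt hop
  have hmx := h.gf.mx ta h.gf.h1
  have hwin := h.gf.win
  refine H982R.planar2 (N := N) (l := l) (A := (w ta).1) (B := (w N).1 - (w td).1)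
    (ta := ta) (td := td) (t := t) (t' := t') (w := w) hl1 hl2 ?_ htt hop
  refine ⟨⟨dia_br hbr, hta, htd, le_trans h.gf.h1 h.gf.h2, le_rfl, by omega, ?_, le_rfl,
    by omega, ?_⟩, ⟨h.gf.h1, h.gf.h2, dia_upU h.gf.up, h.gf.mx, h.gf.win, h.gf.ls⟩,
    ⟨h.gb.h1, h.gb.h2, dia_upU h.gb.up, h.gb.mn, h.gb.win, h.gb.ls⟩, h.le, h.c1, h.c2⟩
  · intro s hs hA
    by_contra hlt
    have := hs.2.2 ta (by omega)
    omega
  · intro s hs hB
    by_contra hlt
    have := htd.2.2 s (by omega)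
    omega

/-- the diagonal lattice -/
noncomputable def dia : PL where
  adj := dia_adj
  up := dia_up
  adj_x := by
    intro p q h
    unfold dia_adj at h
    omega
  adj_y := by
    intro p q h
    unfold dia_adj at h
    omega
  mir := by
    intro p q c h
    unfold dia_adj at h ⊢
    simp only
    omega
  tra := by
    intro p q c h
    unfold dia_adj at h ⊢
    simp only
    omega
  vmir := by
    intro p q h
    unfold dia_adj at h ⊢
    simp only
    omega
  up_pos := fun w t h => h.1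
  up_tm := by
    intro w t t' htt h h'
    unfold dia_up at h h' ⊢
    simp only [dia_tm_snd w t t' _ htt]
    exact ⟨h, h'⟩
  fold_up := by
    intro N w t hw hct ht hne
    have htN := hct.1
    have a1 := hct.2.1 (t - 1) (by omega)
    have a2 := hct.2.2 (t + 1) (by omega)
    have s1 := hw.adj (t - 1) (by omega)
    have s2 := hw.adj t htN
    rw [Nat.sub_add_cancel ht] at s1
    rw [rf_le (by omega : t - 1 ≤ t), rf_gt (by omega : t < t + 1)] at hne
    unfold dia_adj at s1 s2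
    have hy : (w (t - 1)).2 ≠ (w (t + 1)).2 := by
      intro h
      apply hne
      apply Prod.ext
      · simp only
        omega
      · exact h
    unfold dia_up vm
    simp only
    omega
  planar := dia_planar

end Pool.Agent.H979R2.NP
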