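import Pool.Agent.H977R3.Clos
import Pool.Agent.H725R2.SB.Defs2

/-!
# Planar input for the almost power law: definitions

Walks are functions `w : ℕ → ℤ × ℤ` (constant after time `N`); the first coordinate is the level,
`(x, y) ↦ (c - x, y)` are the reflections.  Two planar lattices are used: `ℤ²` with its usual
adjacency, and `ℤ²` in the coordinates `(x + y, x - y)`, with steps `(±1, ±1)`.
-/

set_option autoImplicit false

namespace Pool.Agent.H979R2.NP

open Pool.Agent.H977R3 (Wk rf tm LS CT rf_le rf_gt tm_le tm_mid tm_gt rf_rf rf_tm_left rf_tm_right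
  tm_tm tm_self)

/-- reflection in the horizontal axis -/
def vm (w : Wk) : Wk := fun i => ((w i).1, -(w i).2)

/-- `w` is an `N`-step self-avoiding walk for the adjacency `adj`. -/
structure SawA (adj : ℤ × ℤ → ℤ × ℤ → Prop) (N : ℕ) (w : Wk) : Prop where
  zero : w 0 = (0, 0)
  adj : ∀ i, i < N → adj (w i) (w (i + 1))
  inj : ∀ i k, i ≤ N → k ≤ N → w i = w k → i = k
  const : ∀ i, N ≤ i → w i = w N

/-- bridges -/
structure BrA (adj : ℤ × ℤ → ℤ × ℤ → Prop) (N : ℕ) (w : Wk) : Prop where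
  saw : SawA adj N w
  pos : ∀ i, 1 ≤ i → i ≤ N → 0 < (w i).1
  le : ∀ i, i ≤ N → (w i).1 ≤ (w N).1

/-- forward pivots -/
structure GFA (up : Wk → ℕ → Prop) (N : ℕ) (l : ℤ) (ta td : ℕ) (w : Wk) (t : ℕ) : Prop where
  h1 : ta ≤ t
  h2 : t ≤ td
  up : up w t
  mx : ∀ i, i ≤ t → (w i).1 ≤ (w t).1
  win : (w t).1 - (w ta).1 < l
  ls : LS N ta td (rf w t)

/-- backward pivots -/
structure GBA (up : Wk → ℕ → Prop) (N : ℕ) (l : ℤ) (ta td : ℕ) (w : Wk) (t : ℕ) : Prop where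
  h1 : ta ≤ t
  h2 : t ≤ td
  up : up w t
  mn : ∀ i, t < i → (w t).1 < (w i).1
  win : (w td).1 - (w t).1 < l
  ls : LS N ta td (rf w t)

/-- pairs of pivots -/
structure PQA (up : Wk → ℕ → Prop) (N : ℕ) (l : ℤ) (ta td : ℕ) (w : Wk) (t t' : ℕ) : Prop where
  gf : GFA up N l ta td w t
  gb : GBA up N l ta td w t'
  le : t ≤ t'
  c1 : ∀ i, t < i → i ≤ t' → (w i).1 < 2 * (w t).1 - (w ta).1
  c2 : ∀ i, t ≤ i → i ≤ t' → 2 * (w t').1 - (w td).1 ≤ (w i).1

/-- the planarity property -/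
def PlanarStmt (adj : ℤ × ℤ → ℤ × ℤ → Prop) (up : Wk → ℕ → Prop) : Prop :=
  ∀ (N : ℕ) (l : ℤ) (ta td t t' : ℕ) (w : Wk), BrA adj N w → CT N w ta → CT N w td →
    l ≤ (w ta).1 → l ≤ (w N).1 - (w td).1 → PQA up N l ta td w t t' → t < t' →
    (w t).1 < (w t').1 →
    ∀ i k, i ≤ t → t' < k → k ≤ N → w i ≠ ((w k).1 - 2 * ((w t').1 - (w t).1), (w k).2)

/-- A planar lattice with vertical mirrors. -/
structure PL where
  adj : ℤ × ℤ → ℤ × ℤ → Prop
  up : Wk → ℕ → Prop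
  adj_x : ∀ p q, adj p q → q.1 ≤ p.1 + 1 ∧ p.1 ≤ q.1 + 1
  adj_y : ∀ p q, adj p q → q.2 ≤ p.2 + 1 ∧ p.2 ≤ q.2 + 1
  mir : ∀ p q c, adj p q → adj (c - p.1, p.2) (c - q.1, q.2)
  tra : ∀ p q c, adj p q → adj (p.1 + c, p.2) (q.1 + c, q.2)
  vmir : ∀ p q, adj p q → adj (p.1, -p.2) (q.1, -q.2)
  up_pos : ∀ w t, up w t → 1 ≤ t
  up_tm : ∀ w t t', t < t' → up w t → up w t' → up (tm w t t') t ∧ up (tm w t t') t'
  fold_up : ∀ N w t, SawA adj N w → CT N w t → 1 ≤ t → rf w t (t - 1) ≠ rf w t (t + 1) →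
    up w t ∨ up (vm w) t
  planar : PlanarStmt adj up

theorem SawA.bound {adj : ℤ × ℤ → ℤ × ℤ → Prop}
    (hx : ∀ p q, adj p q → q.1 ≤ p.1 + 1 ∧ p.1 ≤ q.1 + 1)
    (hy : ∀ p q, adj p q → q.2 ≤ p.2 + 1 ∧ p.2 ≤ q.2 + 1) {N : ℕ} {w : Wk}
    (h : SawA adj N w) : ∀ i, i ≤ N → |(w i).1| ≤ i ∧ |(w i).2| ≤ i := by
  intro i
  induction i with
  | zero => intro _; simp [h.zero]
  | succ n ih =>
    intro hn
    have h1 := ih (by omega)
    have h2 := hx _ _ (h.adj n (by omega))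
    have h3 := hy _ _ (h.adj n (by omega))
    rw [abs_le, abs_le] at *
    push_cast
    omega

theorem sawA_finite (L : PL) (N : ℕ) : {w : Wk | SawA L.adj N w}.Finite := by
  have hfin : (Set.univ.pi (fun _ : Fin (N+1) =>
      ((Finset.Icc (-(N:ℤ)) N ×ˢ Finset.Icc (-(N:ℤ)) N : Finset (ℤ × ℤ)) : Set (ℤ × ℤ)))).Finite :=
    Set.Finite.pi (fun _ => Finset.finite_toSet _)
  refine Set.Finite.of_finite_image (f := fun w (i : Fin (N+1)) => w i) (hfin.subset ?_) ?_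
  · rintro _ ⟨w, (hw : SawA L.adj N w), rfl⟩
    intro i _
    have := hw.bound L.adj_x L.adj_y i (by omega)
    have hi : (i : ℕ) ≤ N := by omega
    rw [abs_le, abs_le] at this
    simp only [Finset.coe_product, Finset.coe_Icc, Set.mem_prod, Set.mem_Icc]
    omega
  · intro w (hw : SawA L.adj N w) w' (hw' : SawA L.adj N w') heq
    funext i
    have key : ∀ i, i ≤ N → w i = w' i := by
      intro i hi
      have := congrFun heq ⟨i, by omega⟩
      simpa using this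
    rcases le_or_gt i N with h | h
    · exact key i h
    · rw [hw.const i h.le, hw'.const i h.le]
      exact key N le_rfl

open scoped Classical in
/-- the finite set of `N`-step bridges -/
noncomputable def BrF (L : PL) (N : ℕ) : Finset Wk :=
  (sawA_finite L N).toFinset.filter (fun w => BrA L.adj N w)

theorem mem_BrF {L : PL} {N : ℕ} {w : Wk} : w ∈ BrF L N ↔ BrA L.adj N w := by
  classical
  unfold BrF
  simp only [Finset.mem_filter, Set.Finite.mem_toFinset, Set.mem_ofPred_eq]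
  exact ⟨fun h => h.2, fun h => ⟨h.saw, h⟩⟩

/-- `w` agrees with `w₀` before the cut time `ta` and, up to a horizontal translation, after the
cut time `td`. -/
structure Cl (L : PL) (N ta td : ℕ) (w₀ w : Wk) : Prop where
  br : BrA L.adj N w
  cta : CT N w ta
  ctd : CT N w td
  pre : ∀ i, i ≤ ta → w i = w₀ i
  suf : ∀ i, td ≤ i → w i = ((w₀ i).1 + ((w td).1 - (w₀ td).1), (w₀ i).2)

open scoped Classical in
/-- the finite class of `w₀` -/
noncomputable def ClF (L : PL) (N ta td : ℕ) (w₀ : Wk) : Finset Wk :=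
  (BrF L N).filter (fun w => Cl L N ta td w₀ w)

theorem mem_ClF {L : PL} {N ta td : ℕ} {w₀ w : Wk} :
    w ∈ ClF L N ta td w₀ ↔ Cl L N ta td w₀ w := by
  classical
  unfold ClF
  rw [Finset.mem_filter, mem_BrF]
  exact ⟨fun h => h.2, fun h => ⟨h.br, h⟩⟩

/-- the polylogarithmic factor -/
noncomputable def Yb (l : ℤ) (n : ℕ) : ℝ :=
  8 * ((Nat.log 2 l.toNat : ℝ) + 2) ^ 2 * (1 + 3 * Real.log ((n : ℝ) + 1))

/-! ### folded objects -/

/-- folded objects -/
def IsVA (L : PL) (N : ℕ) (l : ℤ) (ta td : ℕ) (w₀ v : Wk) : Prop :=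
  ∃ w j, Cl L N ta td w₀ w ∧ GFA L.up N l ta td w j ∧ GBA L.up N l ta td w j ∧ v = rf w j

/-- The relation between pivots `t` and `t'` of `w`. -/
def QPA (L : PL) (N : ℕ) (l : ℤ) (ta td : ℕ) (w₀ w : Wk) (t t' : ℕ) : Prop :=
  Cl L N ta td w₀ w ∧ PQA L.up N l ta td w t t' ∧ IsVA L N l ta td w₀ (rf w t) ∧
    IsVA L N l ta td w₀ (rf w t')

open scoped Classical in
/-- the finite set of triples -/
noncomputable def QQA (L : PL) (N : ℕ) (l : ℤ) (ta td : ℕ) (w₀ : Wk) : Finset (Wk × ℕ × ℕ) :=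
  (ClF L N ta td w₀ ×ˢ (Finset.range N ×ˢ Finset.range N)).filter
    (fun c => QPA L N l ta td w₀ c.1 c.2.1 c.2.2)

open scoped Classical in
/-- the finite set of folded objects -/
noncomputable def VVA (L : PL) (N : ℕ) (l : ℤ) (ta td : ℕ) (w₀ : Wk) : Finset Wk :=
  ((ClF L N ta td w₀ ×ˢ Finset.range N).image (fun c => rf c.1 c.2)).filter
    (IsVA L N l ta td w₀)

open scoped Classical in
/-- the pivot pairs of a walk, as a finite set -/
noncomputable def RRA (L : PL) (N : ℕ) (l : ℤ) (ta td : ℕ) (w₀ w : Wk) : Finset (ℕ × ℕ) :=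
  (Finset.range N ×ˢ Finset.range N).filter (fun c => QPA L N l ta td w₀ w c.1 c.2)

open scoped Classical in
/-- the walks which have a pair of pivots -/
noncomputable def WWA (L : PL) (N : ℕ) (l : ℤ) (ta td : ℕ) (w₀ : Wk) : Finset Wk :=
  (ClF L N ta td w₀).filter (fun w => ∃ t t', QPA L N l ta td w₀ w t t')

/-! ### refoldable pairs -/

/-- `(a, b)` is a pair of cut times of `w` such that reflecting the piece between `a` and `b` gives
a self-avoiding walk, at distance `< r`, and the cut levels of `w` in the window `[α, β)` are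
close to the levels of `a` and `b`. -/
structure Rp (L : PL) (N : ℕ) (r : ℤ) (τ : ℕ) (α β D : ℤ) (w : Wk) (a b : ℕ) : Prop where
  br : BrA L.adj N w
  ab : a < b
  ca : CT N w a
  cb : CT N w b
  sr : (w b).1 - (w a).1 < r
  saw : ∀ i k, i < k → k ≤ N → tm w a b i ≠ tm w a b k
  iso : ∀ t, CT N w t → α ≤ (w t).1 → (w t).1 < β →
    2 * (w a).1 - (w b).1 ≤ (w t).1 ∧ (w t).1 ≤ 2 * (w b).1 - (w a).1
  lo : α + 100 * r ≤ (w a).1
  hi : (w b).1 + 100 * r ≤ β
  dur : ∀ t t', CT N w t → CT N w t' → α ≤ (w t).1 → (w t').1 < β → t' ≤ t + τ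
  top : β + D ≤ (w N).1

open scoped Classical in
/-- first cut time with level at least `x` -/
noncomputable def fc (N : ℕ) (w : Wk) (x : ℤ) : ℕ := sInf {t | CT N w t ∧ x ≤ (w t).1}

open scoped Classical in
/-- last cut time with level at most `x` -/
noncomputable def lc (N : ℕ) (w : Wk) (x : ℤ) : ℕ :=
  Nat.findGreatest (fun t => CT N w t ∧ (w t).1 ≤ x) N

/-- mesh at scale `2^j` -/
def l0 (j : ℕ) : ℤ := max 1 (2 ^ j / 8)

/-- Objects with one marked cut time `b`. `C₀ = fc N w α` and `C₁ = lc N w (β - 50 r)` are the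
first and the last cut times of the cluster. -/
structure Ob (L : PL) (N : ℕ) (r : ℤ) (τ : ℕ) (α β D : ℤ) (j : ℕ) (w : Wk) (b : ℕ) : Prop where
  br : BrA L.adj N w
  cb : CT N w b
  cb1 : α ≤ (w b).1
  cb2 : (w b).1 ≤ β - 50 * r
  o1 : (w b).1 - (w (fc N w α)).1 < 10 * 2 ^ j
  o2 : (w (lc N w (β - 50 * r))).1 - (w b).1 < 2 * 2 ^ j
  o3 : lc N w (β - 50 * r) ≤ fc N w α + τ
  o5 : ∀ t, CT N w t → lc N w (β - 50 * r) < t → β - 8 * r ≤ (w t).1
  o6 : (w (lc N w (β - 50 * r))).1 ≤ β - 90 * r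
  o7 : D ≤ (w N).1 - (w (lc N w (β - 50 * r))).1
  o8 : ∀ i k, i ≤ b → b < k → k ≤ N → (w b).1 - l0 j < (w i).1 →
    w i ≠ (2 * (w b).1 - (w k).1, (w k).2)

/-! ### windows -/

open Pool.Agent.H725R2.SB (NC BT Light IsCut Cut)

/-- first time at level at least `x` -/
noncomputable def hit (a : ℕ → ℤ) (x : ℤ) : ℕ := sInf {i | x ≤ a i}

/-- The window `i ≥ 1` has no cut level, many light levels, is crossed in time `≤ τ` and is not
near the top. -/
def NCd (a : ℕ → ℤ) (N r w τ i : ℕ) : Prop :=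
  1 ≤ i ∧ NC a N r w i ∧
    hit a (4 * (w : ℤ) * (i + 1)) ≤ hit a (4 * (w : ℤ) * i) + τ ∧ 4 * (w : ℤ) * (i + 2) ≤ a N

/-- level sequence of a walk -/
def lv (u : Wk) : ℕ → ℤ := fun i => (u i).1

open scoped Classical in
/-- bridges with closed windows `j ∈ I` -/
noncomputable def XI (L : PL) (N r w τ : ℕ) (I : Finset ℕ) : Finset Wk :=
  (BrF L N).filter (fun u => ∀ j ∈ I, NCd (lv u) N r w τ j)

/-- cost of decoding one window -/
noncomputable def D0 (r τ : ℕ) : ℝ :=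
  r * (10 ^ 6 * ((Nat.log 2 r : ℝ) + 1) * (Yb (4 * (r : ℤ)) τ) ^ 2)

end Pool.Agent.H979R2.NP
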