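import Pool.Agent.H979R2.NP.Stubs

/-!
# Closed windows are local
-/

set_option autoImplicit false

namespace Pool.Agent.H979R2.NP

open Pool.Agent.H977R3 (Wk rf tm LS CT rf_le rf_gt tm_le tm_mid tm_gt rf_rf rf_tm_left rf_tm_right
  tm_tm tm_self)
open Pool.Agent.H725R2.SB (NC BT Light IsCut Cut)

theorem inv_hit_le {a b : ℕ → ℤ} {ta : ℕ} {x : ℤ} (hab : ∀ i, i ≤ ta → b i = a i)
    (hx : x ≤ a ta) : hit b x ≤ hit a x := by
  have hmem : ta ∈ {i | x ≤ a i} := hx
  have h1 : hit a x ∈ {i | x ≤ a i} := Nat.sInf_mem ⟨ta, hmem⟩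
  have h2 : hit a x ≤ ta := Nat.sInf_le hmem
  have h3 : x ≤ a (hit a x) := h1
  refine Nat.sInf_le ?_
  show x ≤ b (hit a x)
  rw [hab _ h2]
  exact h3

theorem inv_hit {a b : ℕ → ℤ} {ta : ℕ} {x : ℤ} (hab : ∀ i, i ≤ ta → b i = a i)
    (hx : x ≤ a ta) : hit b x = hit a x := by
  refine le_antisymm (inv_hit_le hab hx) (inv_hit_le (fun i hi => (hab i hi).symm) ?_)
  rw [hab ta le_rfl]
  exact hx

theorem inv_cut {a b : ℕ → ℤ} {N ta : ℕ} {q : ℤ} (hab : ∀ i, i ≤ ta → b i = a i)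
    (ha : ∀ i, ta ≤ i → a ta ≤ a i) (hb : ∀ i, ta ≤ i → a ta ≤ b i) (hq : q < a ta)
    (h : IsCut b N q) : IsCut a N q := by
  obtain ⟨u, h1, h2, h3⟩ := h
  have hu : u < ta := by
    by_contra hcon
    have h4 := h2 ta (by omega)
    have h5 := hb ta le_rfl
    omega
  refine ⟨u, h1, ?_, ?_⟩
  · intro i hi
    rw [← hab i (by omega)]
    exact h2 i hi
  · intro i hi hiN
    rcases le_or_gt i ta with h | h
    · rw [← hab i h]
      exact h3 i hi hiN
    · have := ha i h.le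
      omega

theorem inv_light {a b : ℕ → ℤ} {N r ta : ℕ} {p : ℤ} (hab : ∀ i, i ≤ ta → b i = a i)
    (ha : ∀ i, ta ≤ i → a ta ≤ a i) (hb : ∀ i, ta ≤ i → a ta ≤ b i) (hp : p < a ta)
    (h : Light a N r p) : Light b N r p := by
  obtain ⟨t, t', h, hr⟩ := h
  have ht' : t' < ta := by
    by_contra hcon
    have h4 := ha t' (by omega)
    have h5 := h.p1
    omega
  have htt := h.le
  have e1 : b t = a t := hab t (by omega)
  have e2 : b t' = a t' := hab t' (by omega)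
  have hp1 := h.p1
  refine ⟨t, t', ⟨h.le, h.leN, ?_, ?_, ?_, ?_, ?_, ?_⟩, ?_⟩
  · intro i hi
    rw [e1, hab i (by omega)]
    exact h.up i hi
  · intro i hi hi'
    rw [e1, hab i (by omega)]
    exact h.up' i hi hi'
  · intro i hi hiN
    rw [e2]
    rcases le_or_gt i ta with hh | hh
    · rw [hab i hh]
      exact h.lo i hi hiN
    · have := hb i hh.le
      omega
  · intro i hi hiN
    rw [e2]
    rcases le_or_gt i ta with hh | hh
    · rw [hab i hh]
      exact h.lo' i hi hiN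
    · have := hb i hh.le
      omega
  · rw [e2]
    exact h.p1
  · rw [e1]
    exact h.p2
  · rw [e1, e2]
    exact hr

theorem p_INV (L : PL) : St_INV L := by
  intro N r w τ i I hr hrw hI ta td ξ ξ' hbr hta htd hle hα hD hcl hΦ j hj
  have hji : j < i := hI j hj
  obtain ⟨n1, n2, n3, n4⟩ := hΦ j hj
  have hab : ∀ k, k ≤ ta → lv ξ' k = lv ξ k := by
    intro k hk
    unfold lv
    rw [hcl.pre k hk]
  have ha : ∀ k, ta ≤ k → lv ξ ta ≤ lv ξ k := by
    intro k hk
    rcases Nat.eq_or_lt_of_le hk with h | h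
    · rw [h]
    · have := hta.2.2 k h
      unfold lv
      omega
  have hb : ∀ k, ta ≤ k → lv ξ ta ≤ lv ξ' k := by
    intro k hk
    have e := hab ta le_rfl
    rw [← e]
    rcases Nat.eq_or_lt_of_le hk with h | h
    · rw [h]
    · have := hcl.cta.2.2 k h
      unfold lv
      omega
  have hα' : 4 * (w : ℤ) * i ≤ lv ξ ta := hα
  have hji' : (j : ℤ) + 1 ≤ i := by exact_mod_cast hji
  have hw : (1 : ℤ) ≤ w := by exact_mod_cast (le_trans hr hrw)
  have hA : 4 * (w : ℤ) * (j + 1) ≤ lv ξ ta := by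
    refine le_trans ?_ hα'
    have : (0 : ℤ) ≤ 4 * w := by omega
    exact mul_le_mul_of_nonneg_left hji' this
  have hA0 : 4 * (w : ℤ) * j ≤ lv ξ ta := by
    have : 4 * (w : ℤ) * (j + 1) = 4 * w * j + 4 * w := by ring
    omega
  refine ⟨n1, ⟨?_, ?_⟩, ?_, ?_⟩
  · intro q hq1 hq2 hcut
    exact n2.1 q hq1 hq2 (inv_cut hab ha hb (lt_of_lt_of_le hq2 hA) hcut)
  · classical
    refine le_trans n2.2 (Finset.card_le_card ?_)
    intro p hp
    rw [Finset.mem_filter] at hp ⊢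
    refine ⟨hp.1, inv_light hab ha hb ?_ hp.2⟩
    have h1 := (Finset.mem_Ioc.mp hp.1).2
    have : 4 * (w : ℤ) * (j + 1) = 4 * w * j + 4 * w := by ring
    omega
  · rw [inv_hit hab hA, inv_hit hab hA0]
    exact n3
  · have e1 : lv ξ' N = (ξ N).1 + ((ξ' td).1 - (ξ td).1) := by
      unfold lv
      rw [hcl.suf N htd.1.le]
    have e2 : lv ξ ta ≤ (ξ' td).1 := hb td hle
    have e3 : 4 * (w : ℤ) * (j + 2) = 4 * w * (j + 1) + 4 * w := by ring
    rw [e1, e3]
    omega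

end Pool.Agent.H979R2.NP
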