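import Pool.Agent.H979R2.NP.Stubs

/-!
# JA: first decoding step (helper541)
-/

set_option autoImplicit false

namespace Pool.Agent.H979R2.NP

open Pool.Agent.H977R3 (Wk rf tm LS CT rf_le rf_gt tm_le tm_mid tm_gt)

theorem ja_le {N : ℕ} {w : Wk} {t i : ℕ} (h : CT N w t) (hi : i ≤ t) : (w i).1 ≤ (w t).1 :=
  h.2.1 i hi

theorem ja_lt {N : ℕ} {w : Wk} {t i : ℕ} (h : CT N w t) (hi : t < i) : (w t).1 < (w i).1 := by
  have := h.2.2 i hi
  omega

theorem ja_ge {N : ℕ} {w : Wk} {t i : ℕ} (h : CT N w t) (hi : t ≤ i) : (w t).1 ≤ (w i).1 := by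
  rcases Nat.eq_or_lt_of_le hi with h1 | h1
  · rw [h1]
  · exact (ja_lt h h1).le

theorem ja_fc {N : ℕ} {w : Wk} {x : ℤ} {t : ℕ} (h : CT N w t) (hx : x ≤ (w t).1) :
    CT N w (fc N w x) ∧ x ≤ (w (fc N w x)).1 ∧ fc N w x ≤ t := by
  have hne : {t | CT N w t ∧ x ≤ (w t).1}.Nonempty := ⟨t, h, hx⟩
  have h1 := Nat.sInf_mem hne
  exact ⟨h1.1, h1.2, Nat.sInf_le ⟨h, hx⟩⟩

theorem ja_lc {N : ℕ} {w : Wk} {x : ℤ} {t : ℕ} (h : CT N w t) (hx : (w t).1 ≤ x) :
    CT N w (lc N w x) ∧ (w (lc N w x)).1 ≤ x ∧ t ≤ lc N w x := by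
  classical
  have h1 := Nat.findGreatest_spec (P := fun t => CT N w t ∧ (w t).1 ≤ x) (n := N) (m := t)
    h.1.le ⟨h, hx⟩
  have h2 := Nat.le_findGreatest (P := fun t => CT N w t ∧ (w t).1 ≤ x) (n := N) (m := t)
    h.1.le ⟨h, hx⟩
  unfold lc
  exact ⟨by convert h1.1, by convert h1.2, by convert h2⟩

theorem ja_lc_eq {N : ℕ} {w : Wk} {x : ℤ} {t : ℕ} (h : CT N w t) (hx : (w t).1 ≤ x)
    (hmax : ∀ t', CT N w t' → t < t' → x < (w t').1) : lc N w x = t := by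
  obtain ⟨h1, h2, h3⟩ := ja_lc h hx
  by_contra hne
  have h4 := hmax _ h1 (by omega)
  omega

theorem ja_fibre {A B C : Type*} [DecidableEq C] (S : Finset A) (T : Finset B) (f : A → C)
    (h : B → C) (Y : ℝ) (hY : 0 ≤ Y)
    (H : ∀ s ∈ S, ((S.filter (fun x => f x = f s)).card : ℝ) ≤
      Y * ((T.filter (fun y => h y = f s)).card : ℝ)) :
    (S.card : ℝ) ≤ Y * (T.card : ℝ) := by
  classical
  have h1 : S.card = ∑ c ∈ S.image f, (S.filter (fun x => f x = c)).card :=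
    Finset.card_eq_sum_card_image f S
  have h2 : ∑ c ∈ S.image f, (T.filter (fun y => h y = c)).card ≤ T.card := by
    rw [← Finset.card_biUnion]
    · refine Finset.card_le_card ?_
      intro y hy
      rw [Finset.mem_biUnion] at hy
      obtain ⟨c, -, hc⟩ := hy
      exact (Finset.mem_filter.1 hc).1
    · intro c _ c' _ hcc
      rw [Function.onFun, Finset.disjoint_left]
      intro y hy hy'
      exact hcc ((Finset.mem_filter.1 hy).2.symm.trans (Finset.mem_filter.1 hy').2)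
  have h3 : (∑ c ∈ S.image f, ((S.filter (fun x => f x = c)).card : ℝ)) ≤
      ∑ c ∈ S.image f, Y * ((T.filter (fun y => h y = c)).card : ℝ) := by
    refine Finset.sum_le_sum fun c hc => ?_
    obtain ⟨s, hs, rfl⟩ := Finset.mem_image.1 hc
    exact H s hs
  calc (S.card : ℝ) = ∑ c ∈ S.image f, ((S.filter (fun x => f x = c)).card : ℝ) := by
        rw [h1]; push_cast; rfl
    _ ≤ ∑ c ∈ S.image f, Y * ((T.filter (fun y => h y = c)).card : ℝ) := h3
    _ = Y * ((∑ c ∈ S.image f, (T.filter (fun y => h y = c)).card : ℕ) : ℝ) := by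
        rw [← Finset.mul_sum]; push_cast; rfl
    _ ≤ Y * (T.card : ℝ) := by
        refine mul_le_mul_of_nonneg_left ?_ hY
        exact_mod_cast h2

theorem ja_l0 (j : ℕ) : 1 ≤ l0 j ∧ l0 j ≤ 2 ^ j ∧ (2 : ℤ) ^ (j + 1) ≤ 16 * l0 j := by
  unfold l0
  have h1 : (1 : ℤ) ≤ 2 ^ j := one_le_pow₀ (by norm_num)
  refine ⟨le_max_left _ _, max_le h1 (by omega), ?_⟩
  rcases Nat.lt_or_ge j 3 with h | h
  · have h2 : (1 : ℤ) ≤ max 1 (2 ^ j / 8) := le_max_left _ _
    interval_cases j <;> norm_num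
  · obtain ⟨i, rfl⟩ := Nat.exists_eq_add_of_le h
    have h3 : (2 : ℤ) ^ (3 + i) = 8 * 2 ^ i := by rw [pow_add]; norm_num
    have h4 : (2 : ℤ) ^ (3 + i) / 8 = 2 ^ i := by
      rw [h3]; omega
    have h5 : (2 : ℤ) ^ i ≤ max 1 (2 ^ (3 + i) / 8) := by
      rw [h4]; exact le_max_right _ _
    have h6 : (2 : ℤ) ^ (3 + i + 1) = 16 * 2 ^ i := by rw [pow_succ, h3]; ring
    rw [h6]
    linarith

/-- mark before `a` -/
noncomputable def ja_ta (N : ℕ) (α : ℤ) (j g : ℕ) (w : Wk) : ℕ :=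
  fc N w ((w (fc N w α)).1 + g * l0 j)

/-- mark before `b` -/
noncomputable def ja_td (N : ℕ) (j : ℕ) (w : Wk) (b : ℕ) : ℕ := lc N w ((w b).1 - l0 j)

/-- the key -/
noncomputable def ja_key (L : PL) (N : ℕ) (α : ℤ) (j g : ℕ) (w : Wk) (b : ℕ) :
    ℕ × ℕ × ℕ × Finset Wk :=
  (b, ja_ta N α j g w, ja_td N j w b, ClF L N (ja_ta N α j g w) (ja_td N j w b) w)

/-- facts on a member with given `g` -/
structure JaM (L : PL) (N : ℕ) (r : ℤ) (τ : ℕ) (α β D : ℤ) (j g : ℕ) (w : Wk) (a b : ℕ) :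
    Prop where
  rp : Rp L N r τ α β D w a b
  s1 : (2 : ℤ) ^ j ≤ (w b).1 - (w a).1
  s2 : (w b).1 - (w a).1 < 2 ^ (j + 1)
  g1 : (w (fc N w α)).1 + g * l0 j ≤ (w a).1
  g2 : (w a).1 < (w (fc N w α)).1 + (g + 1) * l0 j

section member

variable {L : PL} {N : ℕ} {r : ℤ} {τ : ℕ} {α β D : ℤ} {j g : ℕ} {w : Wk} {a b : ℕ}

theorem JaM.base (hr : 1 ≤ r) (h : JaM L N r τ α β D j g w a b) :
    CT N w (fc N w α) ∧ α ≤ (w (fc N w α)).1 ∧ fc N w α ≤ a ∧
      (w a).1 - (w (fc N w α)).1 ≤ (w b).1 - (w a).1 := by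
  have h1 := h.rp.lo
  have h2 := h.rp.hi
  have h3 := h.rp.sr
  obtain ⟨c1, c2, c3⟩ := ja_fc (x := α) h.rp.ca (by omega)
  have c4 := ja_ge c1 c3
  have c5 := ja_lt h.rp.ca h.rp.ab
  have c6 := (h.rp.iso _ c1 c2 (by omega)).1
  exact ⟨c1, c2, c3, by omega⟩

theorem JaM.ta (hr : 1 ≤ r) (h : JaM L N r τ α β D j g w a b) :
    CT N w (ja_ta N α j g w) ∧ (w (fc N w α)).1 + g * l0 j ≤ (w (ja_ta N α j g w)).1 ∧
      ja_ta N α j g w ≤ a ∧ fc N w α ≤ ja_ta N α j g w ∧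
      (w a).1 - (w (ja_ta N α j g w)).1 < l0 j := by
  obtain ⟨b1, b2, b3, b4⟩ := h.base hr
  obtain ⟨c1, c2, c3⟩ := ja_fc (x := (w (fc N w α)).1 + g * l0 j) h.rp.ca h.g1
  have hm := (ja_l0 j).1
  have h0 : 0 ≤ (g : ℤ) * l0 j := by positivity
  have c4 : fc N w α ≤ ja_ta N α j g w := (ja_fc (x := α) c1 (by omega)).2.2
  refine ⟨c1, c2, c3, c4, ?_⟩
  have h2 := h.g2
  have h3 : ((g : ℤ) + 1) * l0 j = g * l0 j + l0 j := by ring
  unfold ja_ta
  omega

theorem JaM.td (h : JaM L N r τ α β D j g w a b) :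
    CT N w (ja_td N j w b) ∧ (w (ja_td N j w b)).1 ≤ (w b).1 - l0 j ∧
      a ≤ ja_td N j w b ∧ ja_td N j w b < b := by
  obtain ⟨m1, m2, m3⟩ := ja_l0 j
  have s1 := h.s1
  obtain ⟨c1, c2, c3⟩ := ja_lc (x := (w b).1 - l0 j) h.rp.ca (by omega)
  refine ⟨c1, c2, c3, ?_⟩
  by_contra hcon
  have := ja_ge h.rp.cb (not_lt.1 hcon)
  unfold ja_td at this
  omega

theorem JaM.ls (hr : 1 ≤ r) (h : JaM L N r τ α β D j g w a b) :
    LS N (ja_ta N α j g w) (ja_td N j w b) (rf w a) := by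
  obtain ⟨c1, c2, c3, c4, c5⟩ := h.ta hr
  obtain ⟨d1, d2, d3, d4⟩ := h.td
  obtain ⟨m1, m2, m3⟩ := ja_l0 j
  have hs := h.s1
  intro i k hik hkN hor heq
  rcases le_or_gt k a with hk | hk
  · rw [rf_le (by omega), rf_le hk] at heq
    have := h.rp.br.saw.inj i k (by omega) hkN heq
    omega
  · rcases le_or_gt i a with hi | hi
    · rw [rf_le hi, rf_gt hk] at heq
      rcases le_or_gt k b with hkb | hkb
      · apply h.rp.saw i k hik hkN
        rw [tm_le hi, tm_mid hk hkb, heq]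
      · have hta : ja_ta N α j g w ≤ i := by
          rcases hor with h1 | h1
          · exact h1
          · omega
        have e1 := ja_ge c1 hta
        have e2 := ja_lt h.rp.cb hkb
        have e3 := congrArg Prod.fst heq
        simp only at e3
        omega
    · rw [rf_gt hi, rf_gt hk] at heq
      have e1 := congrArg Prod.fst heq
      have e2 := congrArg Prod.snd heq
      simp only at e1 e2
      have := h.rp.br.saw.inj i k (by omega) hkN (Prod.ext (by omega) e2)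
      omega

theorem ja_cl_refl {ta td : ℕ} (h1 : BrA L.adj N w) (h2 : CT N w ta) (h3 : CT N w td) :
    Cl L N ta td w w :=
  ⟨h1, h2, h3, fun _ _ => rfl, fun i _ => by ext <;> simp⟩

theorem JaM.fm (hr : 1 ≤ r) (h : JaM L N r τ α β D j g w a b) {w₀ : Wk}
    (hcl : Cl L N (ja_ta N α j g w) (ja_td N j w b) w₀ w) :
    FM L N (2 ^ (j + 1)) (ja_ta N α j g w) (ja_td N j w b) w₀ w a := by
  obtain ⟨c1, c2, c3, c4, c5⟩ := h.ta hr
  obtain ⟨d1, d2, d3, d4⟩ := h.td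
  obtain ⟨m1, m2, m3⟩ := ja_l0 j
  have s1 := h.s1
  have s2 := h.s2
  have hp : (2 : ℤ) ^ (j + 1) = 2 * 2 ^ j := by rw [pow_succ]; ring
  exact ⟨hcl, c3, d3, h.rp.ca, by omega, by omega, h.ls hr⟩

/-- the walks of the class are objects with the same key -/
theorem JaM.obj {w₀ : Wk} {a₀ b₀ : ℕ} {Φ : Wk → Prop} (h_MST : St_MST L) (hr : 1 ≤ r)
    (hInv : Inv L N α D Φ)
    (h : JaM L N r τ α β D j g w₀ a₀ b₀) (hΦ : Φ w₀)
    (hcl : Cl L N (ja_ta N α j g w₀) (ja_td N j w₀ b₀) w₀ w)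
    (hw : (w (ja_td N j w₀ b₀)).1 < (w (ja_ta N α j g w₀)).1 + 3 * 2 ^ (j + 1)) :
    (w, b₀) ∈ OA L N r τ α β D Φ j ∧ ja_key L N α j g w b₀ = ja_key L N α j g w₀ b₀ := by
  classical
  obtain ⟨b1, b2, b3, b4⟩ := h.base hr
  obtain ⟨c1, c2, c3, c4, c5⟩ := h.ta hr
  obtain ⟨d1, d2, d3, d4⟩ := h.td
  obtain ⟨m1, m2, m3⟩ := ja_l0 j
  have s1 := h.s1
  have s2 := h.s2
  have sr := h.rp.sr
  have lo := h.rp.lo
  have hi := h.rp.hi
  have top := h.rp.top
  have hp : (2 : ℤ) ^ (j + 1) = 2 * 2 ^ j := by rw [pow_succ]; ring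
  set m := l0 j with hm
  obtain ⟨ta, hta⟩ : ∃ ta, ta = ja_ta N α j g w₀ := ⟨_, rfl⟩
  obtain ⟨td, htd⟩ : ∃ td, td = ja_td N j w₀ b₀ := ⟨_, rfl⟩
  rw [← hta] at c1 c2 c3 c4 c5 hcl hw
  rw [← htd] at d1 d2 d3 d4 hcl hw
  have htt : ta ≤ td := c3.trans d3
  have M := h_MST N ta td w₀ w hcl h.rp.br c1 d1 htt
  obtain ⟨sh, hsh⟩ : ∃ sh, sh = (w td).1 - (w₀ td).1 := ⟨_, rfl⟩
  have suf : ∀ i, td ≤ i → w i = ((w₀ i).1 + sh, (w₀ i).2) := by
    intro i hi
    rw [hsh]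
    exact hcl.suf i hi
  have suf1 : ∀ i, td ≤ i → (w i).1 = (w₀ i).1 + sh := fun i hi => by rw [suf i hi]
  have hwta : (w ta).1 = (w₀ ta).1 := by rw [hcl.pre ta le_rfl]
  have wd := ja_ge hcl.cta htt
  have wd0 := ja_ge c1 htt
  have hwC0 : (w (fc N w₀ α)).1 = (w₀ (fc N w₀ α)).1 := by rw [hcl.pre _ c4]
  have hC0ta := ja_ge b1 c4
  have hfc : fc N w α = fc N w₀ α := (M.m3 α (by omega)).1
  have hg0 : 0 ≤ (g : ℤ) * m := by positivity
  have htab := ja_le c1 (Nat.le_refl ta)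
  have haC := ja_ge b1 b3
  have hata := ja_ge c1 c3
  have htda := ja_ge h.rp.ca d3
  have htdb := ja_lt d1 d4
  have hb : (w b₀).1 = (w₀ b₀).1 + sh := suf1 b₀ d4.le
  -- marks
  have kta : ja_ta N α j g w = ta := by
    unfold ja_ta
    rw [hfc, hwC0, (M.m3 _ c2).1, hta]
    rfl
  have ktd : ja_td N j w b₀ = td := by
    unfold ja_td
    rw [hb]
    have e1 : (w₀ b₀).1 + sh - l0 j = ((w₀ b₀).1 - l0 j) + ((w td).1 - (w₀ td).1) := by
      rw [← hsh]; ring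
    rw [e1, (M.m4 _ (by omega)).1, htd]
    rfl
  -- the last cut time of the cluster
  obtain ⟨C1, hC1⟩ : ∃ C1, C1 = lc N w₀ (β - 50 * r) := ⟨_, rfl⟩
  obtain ⟨f1, f2, f3⟩ := ja_lc (x := β - 50 * r) h.rp.cb (by omega)
  have f6 : ∀ t, CT N w₀ t → lc N w₀ (β - 50 * r) < t → β ≤ (w₀ t).1 := by
    intro t ht htc
    by_contra hcon
    have e1 : β - 50 * r < (w₀ t).1 := by
      by_contra hcon2
      have := (ja_lc (x := β - 50 * r) ht (by omega)).2.2
      omega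
    have e2 := (h.rp.iso t ht (by omega) (by omega)).2
    omega
  rw [← hC1] at f1 f2 f3 f6
  have f4 := ja_ge h.rp.cb f3
  have f5 := (h.rp.iso C1 f1 (by omega) (by omega)).2
  have htdC : td ≤ C1 := d4.le.trans f3
  have hwC1 : (w C1).1 = (w₀ C1).1 + sh := suf1 C1 htdC
  have hsh1 : sh < 6 * r := by omega
  have hsh2 : -r < sh := by omega
  have cC1 : CT N w C1 := (M.m2 C1 htdC).2 f1
  have later : ∀ t, CT N w t → C1 < t → β + sh ≤ (w t).1 := by
    intro t ht hct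
    have e1 := f6 t ((M.m2 t (by omega)).1 ht) hct
    rw [suf1 t (by omega)]
    omega
  have hlc : lc N w (β - 50 * r) = C1 := by
    apply ja_lc_eq cC1 (by omega)
    intro t ht hct
    have := later t ht hct
    omega
  have hN : (w N).1 = (w₀ N).1 + sh := suf1 N d1.1.le
  refine ⟨?_, ?_⟩
  · have hbN : b₀ < N := h.rp.cb.1
    have hPhi : Φ w := hInv ta td w₀ w h.rp.br c1 d1 htt (by omega) (by omega) hcl hΦ
    unfold OA
    rw [Finset.mem_filter, Finset.mem_product]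
    refine ⟨⟨mem_BrF.2 hcl.br, Finset.mem_range.2 hbN⟩, hPhi, ?_⟩
    refine ⟨hcl.br, (M.m2 b₀ d4.le).2 h.rp.cb, ?_, ?_, ?_, ?_, ?_, ?_, ?_, ?_, ?_⟩
    · show α ≤ (w b₀).1
      have := ja_ge hcl.cta (htt.trans d4.le)
      omega
    · show (w b₀).1 ≤ β - 50 * r
      omega
    · show (w b₀).1 - (w (fc N w α)).1 < 10 * 2 ^ j
      rw [hfc, hwC0]
      omega
    · show (w (lc N w (β - 50 * r))).1 - (w b₀).1 < 2 * 2 ^ j
      rw [hlc]
      omega
    · show lc N w (β - 50 * r) ≤ fc N w α + τ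
      rw [hlc, hfc]
      exact h.rp.dur _ _ b1 f1 b2 (by omega)
    · show ∀ t, CT N w t → lc N w (β - 50 * r) < t → β - 8 * r ≤ (w t).1
      rw [hlc]
      intro t ht hct
      have := later t ht hct
      omega
    · show (w (lc N w (β - 50 * r))).1 ≤ β - 90 * r
      rw [hlc]
      omega
    · show D ≤ (w N).1 - (w (lc N w (β - 50 * r))).1
      rw [hlc]
      omega
    · show ∀ i k, i ≤ b₀ → b₀ < k → k ≤ N → (w b₀).1 - l0 j < (w i).1 →
        w i ≠ (2 * (w b₀).1 - (w k).1, (w k).2)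
      intro i k hib hbk hkN hlev heq
      have hti : td < i := by
        by_contra hcon
        have e1 := ja_le hcl.ctd (not_lt.1 hcon)
        omega
      have e1 := suf i hti.le
      have e2 := suf k (by omega)
      rw [e1, e2, hb] at heq
      have e3 := congrArg Prod.fst heq
      have e4 := congrArg Prod.snd heq
      simp only at e3 e4
      apply h.rp.saw i k (by omega) hkN
      rw [tm_mid (by omega) hib, tm_gt (by omega) hbk]
      exact Prod.ext (by simp only; omega) e4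
  · unfold ja_key
    rw [kta, ktd, ← hta, ← htd, M.eq]

end member

theorem ja_Yb_mono {l l' : ℤ} {n n' : ℕ} (h : l ≤ l') (hn : n ≤ n') : Yb l n ≤ Yb l' n' := by
  unfold Yb
  have h1 : (Nat.log 2 l.toNat : ℝ) ≤ Nat.log 2 l'.toNat := by
    exact_mod_cast Nat.log_mono_right (Int.toNat_le_toNat h)
  have h2 : Real.log ((n : ℝ) + 1) ≤ Real.log ((n' : ℝ) + 1) := by
    apply Real.log_le_log (by positivity)
    have : (n : ℝ) ≤ n' := by exact_mod_cast hn
    linarith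
  have h3 : 0 ≤ Real.log ((n : ℝ) + 1) := Real.log_nonneg (by
    have : (0 : ℝ) ≤ n := Nat.cast_nonneg n
    linarith)
  gcongr

theorem ja_Yb_nonneg (l : ℤ) (n : ℕ) : 0 ≤ Yb l n := by
  unfold Yb
  have h3 : 0 ≤ Real.log ((n : ℝ) + 1) := Real.log_nonneg (by
    have : (0 : ℝ) ≤ n := Nat.cast_nonneg n
    linarith)
  positivity

theorem p_JA (L : PL) (h_T7 : St_T7 L) (h_MST : St_MST L) : St_JA L := by
  classical
  intro N r τ α β D Φ j hr hα hD hInv
  obtain ⟨m1, m2, m3⟩ := ja_l0 j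
  have hp : (2 : ℤ) ^ (j + 1) = 2 * 2 ^ j := by rw [pow_succ]; ring
  -- the value of `g`
  set G : Wk × ℕ × ℕ → ℕ := fun c =>
    (((c.1 c.2.1).1 - (c.1 (fc N c.1 α)).1) / l0 j).toNat with hG
  have memRF : ∀ c, c ∈ RF L N r τ α β D Φ j ↔ (c.1 ∈ BrF L N ∧ c.2.1 < N ∧ c.2.2 < N) ∧
      Φ c.1 ∧ Rp L N r τ α β D c.1 c.2.1 c.2.2 ∧ (2 : ℤ) ^ j ≤ (c.1 c.2.2).1 - (c.1 c.2.1).1 ∧
      (c.1 c.2.2).1 - (c.1 c.2.1).1 < 2 ^ (j + 1) := by
    intro c
    unfold RF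
    rw [Finset.mem_filter, Finset.mem_product, Finset.mem_product, Finset.mem_range,
      Finset.mem_range]
  have mem : ∀ c ∈ RF L N r τ α β D Φ j, JaM L N r τ α β D j (G c) c.1 c.2.1 c.2.2 ∧
      Φ c.1 ∧ G c ∈ Finset.range 17 := by
    intro c hc
    obtain ⟨-, hΦ, hrp, s1, s2⟩ := (memRF c).1 hc
    have hlo := hrp.lo
    have hhi := hrp.hi
    have hsr := hrp.sr
    obtain ⟨c1, c2, c3⟩ := ja_fc (x := α) hrp.ca (by omega)
    have c4 := ja_ge c1 c3
    have c5 := ja_lt hrp.ca hrp.ab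
    have c6 := (hrp.iso _ c1 c2 (by omega)).1
    obtain ⟨x, hx⟩ : ∃ x, x = (c.1 c.2.1).1 - (c.1 (fc N c.1 α)).1 := ⟨_, rfl⟩
    obtain ⟨m, hm⟩ : ∃ m, m = l0 j := ⟨_, rfl⟩
    have hx0 : 0 ≤ x := by omega
    have hq0 : 0 ≤ x / m := Int.ediv_nonneg hx0 (by omega)
    have hGc : ((G c : ℕ) : ℤ) = x / m := by
      rw [hG]
      simp only
      rw [← hx, ← hm, Int.toNat_of_nonneg hq0]
    have hq1 : x / m * m ≤ x := Int.ediv_mul_le x (by omega)
    have hq2 : x < (x / m + 1) * m := Int.lt_ediv_add_one_mul_self x (by omega)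
    refine ⟨⟨hrp, s1, s2, ?_, ?_⟩, hΦ, ?_⟩
    · rw [hGc, ← hm]; omega
    · rw [hGc, ← hm]; omega
    · rw [Finset.mem_range]
      have : x / m < 17 := by
        rw [Int.ediv_lt_iff_lt_mul (by omega)]
        omega
      omega
  -- for every value of `g`
  have key : ∀ g : ℕ, (((RF L N r τ α β D Φ j).filter (fun c => G c = g)).card : ℝ) ≤
      Yb (2 * r) τ * ((OA L N r τ α β D Φ j).card : ℝ) := by
    intro g
    refine ja_fibre _ _ (fun c : Wk × ℕ × ℕ => ja_key L N α j g c.1 c.2.2)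
      (fun c : Wk × ℕ => ja_key L N α j g c.1 c.2) _ (ja_Yb_nonneg _ _) ?_
    rintro ⟨w₀, a₀, b₀⟩ hs
    obtain ⟨hs1, hs2⟩ := Finset.mem_filter.1 hs
    obtain ⟨hM, hΦ, -⟩ := mem _ hs1
    rw [hs2] at hM
    simp only at hM hΦ
    obtain ⟨b1, b2, b3, b4⟩ := hM.base hr
    obtain ⟨c1, c2, c3, c4, c5⟩ := hM.ta hr
    obtain ⟨d1, d2, d3, d4⟩ := hM.td
    have s1 := hM.s1
    have sr := hM.rp.sr
    have lo := hM.rp.lo
    have hi := hM.rp.hi
    have top := hM.rp.top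
    have hl : (2 : ℤ) ^ (j + 1) ≤ 2 * r := by omega
    have hg0 : 0 ≤ (g : ℤ) * l0 j := by positivity
    have htdb := ja_lt d1 d4
    obtain ⟨ta, hta⟩ : ∃ ta, ta = ja_ta N α j g w₀ := ⟨_, rfl⟩
    obtain ⟨td, htd⟩ : ∃ td, td = ja_td N j w₀ b₀ := ⟨_, rfl⟩
    obtain ⟨F, hF⟩ : ∃ F, F = ((RF L N r τ α β D Φ j).filter (fun c => G c = g)).filter
      (fun c => ja_key L N α j g c.1 c.2.2 = ja_key L N α j g w₀ b₀) := ⟨_, rfl⟩
    obtain ⟨T, hT⟩ : ∃ T, T = (OA L N r τ α β D Φ j).filter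
      (fun c => ja_key L N α j g c.1 c.2 = ja_key L N α j g w₀ b₀) := ⟨_, rfl⟩
    show ((((RF L N r τ α β D Φ j).filter (fun c => G c = g)).filter
      (fun c => ja_key L N α j g c.1 c.2.2 = ja_key L N α j g w₀ b₀)).card : ℝ) ≤
      Yb (2 * r) τ * (((OA L N r τ α β D Φ j).filter
      (fun c => ja_key L N α j g c.1 c.2 = ja_key L N α j g w₀ b₀)).card : ℝ)
    rw [← hF, ← hT]
    have memF : ∀ c ∈ F, JaM L N r τ α β D j g c.1 c.2.1 c.2.2 ∧ c.2.2 = b₀ ∧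
        ja_ta N α j g c.1 = ta ∧ ja_td N j c.1 c.2.2 = td ∧ Cl L N ta td w₀ c.1 := by
      intro c hc
      rw [hF, Finset.mem_filter, Finset.mem_filter] at hc
      obtain ⟨⟨hc1, hc2⟩, hc3⟩ := hc
      obtain ⟨hMc, -, -⟩ := mem _ hc1
      rw [hc2] at hMc
      unfold ja_key at hc3
      rw [Prod.mk.injEq, Prod.mk.injEq, Prod.mk.injEq] at hc3
      obtain ⟨e1, e2, e3, e4⟩ := hc3
      rw [e2, e3, ← hta, ← htd] at e4
      refine ⟨hMc, e1, e2.trans hta.symm, e3.trans htd.symm, ?_⟩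
      rw [← mem_ClF, ← e4, mem_ClF]
      refine ja_cl_refl hMc.rp.br ?_ ?_
      · have := (hMc.ta hr).1
        rwa [e2, ← hta] at this
      · have := hMc.td.1
        rwa [e3, ← htd] at this
    have hT7 := h_T7 N (2 ^ (j + 1)) ta td w₀ (F.image (fun c => (c.1, c.2.1)))
      (T.image Prod.fst) (by omega) (by rw [hta]; omega) (by rw [htd]; omega)
      (by rw [hta, htd]; exact c3.trans d3) ?_ ?_
    · have e1 : (F.image (fun c => (c.1, c.2.1))).card = F.card := by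
        apply Finset.card_image_of_injOn
        intro c hc c' hc' heq
        have g1 := (memF c hc).2.1
        have g2 := (memF c' hc').2.1
        have g3 := congrArg Prod.fst heq
        have g4 := congrArg Prod.snd heq
        simp only at g3 g4
        exact Prod.ext g3 (Prod.ext g4 (g1.trans g2.symm))
      rw [e1] at hT7
      refine hT7.trans ?_
      have e2 : ((T.image Prod.fst).card : ℝ) ≤ T.card := by
        exact_mod_cast Finset.card_image_le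
      have e3 : td - ta ≤ τ := by
        have := hM.rp.dur _ _ c1 d1 (by omega) (by omega)
        rw [← hta, ← htd] at this
        omega
      exact mul_le_mul (ja_Yb_mono hl e3) e2 (Nat.cast_nonneg _) (ja_Yb_nonneg _ _)
    · intro c hc
      obtain ⟨x, hx, rfl⟩ := Finset.mem_image.1 hc
      obtain ⟨g1, g2, g3, g4, g5⟩ := memF x hx
      simp only
      have := g1.fm hr (w₀ := w₀) (by rw [g3, g4]; exact g5)
      rwa [g3, g4] at this
    · intro w hcl hw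
      rw [hta, htd] at hcl hw
      have := hM.obj h_MST hr hInv hΦ hcl hw
      rw [Finset.mem_image]
      refine ⟨(w, b₀), ?_, rfl⟩
      rw [hT, Finset.mem_filter]
      exact this
  -- sum over `g`
  have hsum : (RF L N r τ α β D Φ j).card =
      ∑ g ∈ Finset.range 17, ((RF L N r τ α β D Φ j).filter (fun c => G c = g)).card :=
    Finset.card_eq_sum_card_fiberwise (fun c hc => (mem c hc).2.2)
  rw [hsum]
  push_cast
  calc ∑ g ∈ Finset.range 17, (((RF L N r τ α β D Φ j).filter (fun c => G c = g)).card : ℝ) ≤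
      ∑ _g ∈ Finset.range 17, Yb (2 * r) τ * ((OA L N r τ α β D Φ j).card : ℝ) :=
        Finset.sum_le_sum fun g _ => key g
    _ = 17 * Yb (2 * r) τ * ((OA L N r τ α β D Φ j).card : ℝ) := by
        rw [Finset.sum_const, Finset.card_range, nsmul_eq_mul]
        push_cast
        ring

end Pool.Agent.H979R2.NP
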