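import Pool.Agent.H979R2.NP.Stubs

/-! JB: the second decoding step. -/

set_option autoImplicit false

namespace Pool.Agent.H979R2.NP

open Pool.Agent.H977R3 (Wk rf tm LS CT rf_le rf_gt tm_le tm_mid tm_gt rf_rf rf_tm_left rf_tm_right
  tm_tm tm_self)

/-! ### marks -/

theorem jb_ct_le {N : ℕ} {w : Wk} {t t' : ℕ} (h : CT N w t) (h' : CT N w t')
    (hle : (w t).1 ≤ (w t').1) : t ≤ t' := by
  by_contra hcon
  have := h'.2.2 t (by omega)
  omega

theorem jb_fc_spec {N : ℕ} {w : Wk} {t : ℕ} {x : ℤ} (h : CT N w t) (hx : x ≤ (w t).1) :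
    CT N w (fc N w x) ∧ x ≤ (w (fc N w x)).1 ∧ fc N w x ≤ t := by
  have h1 : t ∈ {t | CT N w t ∧ x ≤ (w t).1} := ⟨h, hx⟩
  have h2 := Nat.sInf_mem (⟨t, h1⟩ : {t | CT N w t ∧ x ≤ (w t).1}.Nonempty)
  exact ⟨h2.1, h2.2, Nat.sInf_le h1⟩

theorem jb_lc_spec {N : ℕ} {w : Wk} {t : ℕ} {x : ℤ} (h : CT N w t) (hx : (w t).1 ≤ x) :
    CT N w (lc N w x) ∧ (w (lc N w x)).1 ≤ x ∧ t ≤ lc N w x := by
  classical
  have h0 : t ≤ N := h.1.le
  have h1 : (fun t => CT N w t ∧ (w t).1 ≤ x) t := ⟨h, hx⟩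
  unfold lc
  have h2 := Nat.findGreatest_spec (P := fun t => CT N w t ∧ (w t).1 ≤ x) h0 h1
  exact ⟨h2.1, h2.2, Nat.le_findGreatest h0 h1⟩

theorem jb_lc_eq {N : ℕ} {w : Wk} {c : ℕ} {x : ℤ} (h : CT N w c) (hx : (w c).1 ≤ x)
    (hl : ∀ t, c < t → CT N w t → x < (w t).1) : lc N w x = c := by
  obtain ⟨h1, h2, h3⟩ := jb_lc_spec h hx
  rcases Nat.eq_or_lt_of_le h3 with h4 | h4
  · exact h4.symm
  · have := hl _ h4 h1
    omega

theorem jb_l0 (j : ℕ) : 1 ≤ l0 j ∧ l0 j ≤ 2 ^ j ∧ (2 : ℤ) ^ j ≤ 8 * l0 j := by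
  have h1 : (1 : ℤ) ≤ 2 ^ j := one_le_pow₀ (by norm_num)
  unfold l0
  refine ⟨le_max_left _ _, ?_, ?_⟩
  · apply max_le h1
    omega
  · rcases Nat.lt_or_ge j 3 with h | h
    · interval_cases j <;> simp
    · obtain ⟨k, rfl⟩ := Nat.exists_eq_add_of_le h
      have h2 : (2 : ℤ) ^ (3 + k) = 8 * 2 ^ k := by
        rw [pow_add]
        norm_num
      have h3 : (2 : ℤ) ^ (3 + k) / 8 = 2 ^ k := by
        rw [h2]
        omega
      rw [h3, h2]
      have := le_max_right (1 : ℤ) (2 ^ k)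
      omega

/-- counting by fibres -/
theorem jb_fibre {A B K : Type*} [DecidableEq K] (S : Finset A) (T : Finset B) (f : A → K)
    (h : B → K) (Y : ℝ) (hY : 0 ≤ Y)
    (hf : ∀ s ∈ S, ((S.filter fun x => f x = f s).card : ℝ) ≤
      Y * ((T.filter fun y => h y = f s).card : ℝ)) :
    (S.card : ℝ) ≤ Y * (T.card : ℝ) := by
  have h1 : (S.card : ℝ) = ∑ c ∈ S.image f, ((S.filter fun x => f x = c).card : ℝ) := by
    rw [Finset.card_eq_sum_card_image f S]
    push_cast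
    rfl
  have h2 : ∑ c ∈ S.image f, ((S.filter fun x => f x = c).card : ℝ) ≤
      ∑ c ∈ S.image f, Y * ((T.filter fun y => h y = c).card : ℝ) := by
    apply Finset.sum_le_sum
    intro c hc
    obtain ⟨s, hs, rfl⟩ := Finset.mem_image.1 hc
    exact hf s hs
  have h3 : ∑ c ∈ S.image f, ((T.filter fun y => h y = c).card : ℝ) ≤ (T.card : ℝ) := by
    have h4 := Finset.sum_card_fiberwise_eq_card_filter T (S.image f) h
    have h5 : (T.filter fun y => h y ∈ S.image f).card ≤ T.card := Finset.card_filter_le _ _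
    rw [← h4] at h5
    exact_mod_cast h5
  rw [h1]
  refine h2.trans ?_
  rw [← Finset.mul_sum]
  exact mul_le_mul_of_nonneg_left h3 hY

theorem jb_Yb_nonneg (l : ℤ) (n : ℕ) : 0 ≤ Yb l n := by
  unfold Yb
  have : 0 ≤ Real.log ((n : ℝ) + 1) := Real.log_nonneg (by linarith [Nat.cast_nonneg (α := ℝ) n])
  positivity

theorem jb_Yb_mono {l l' : ℤ} {n n' : ℕ} (hl : l ≤ l') (hn : n ≤ n') : Yb l n ≤ Yb l' n' := by
  unfold Yb
  have h1 : (Nat.log 2 l.toNat : ℝ) ≤ Nat.log 2 l'.toNat := by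
    exact_mod_cast Nat.log_mono_right (Int.toNat_le_toNat hl)
  have h2 : Real.log ((n : ℝ) + 1) ≤ Real.log ((n' : ℝ) + 1) := by
    apply Real.log_le_log (by positivity)
    have : (n : ℝ) ≤ n' := by exact_mod_cast hn
    linarith
  have h3 : 0 ≤ Real.log ((n : ℝ) + 1) :=
    Real.log_nonneg (by linarith [Nat.cast_nonneg (α := ℝ) n])
  gcongr

/-! ### labels -/

noncomputable def jbTa (N : ℕ) (α m : ℤ) (g : ℕ) (v : Wk) : ℕ :=
  fc N v ((v (fc N v α)).1 + g * m)

noncomputable def jbTd (N : ℕ) (γ m : ℤ) (g : ℕ) (v : Wk) : ℕ :=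
  lc N v ((v (lc N v γ)).1 - g * m)

noncomputable def jbKey (L : PL) (N : ℕ) (α γ m : ℤ) (g g' : ℕ) (v : Wk) : ℕ × ℕ × Finset Wk :=
  (jbTa N α m g v, jbTd N γ m g' v, ClF L N (jbTa N α m g v) (jbTd N γ m g' v) v)

/-- the facts about a marked walk with labels `g`, `g'` -/
structure JbF (L : PL) (N : ℕ) (r : ℤ) (τ : ℕ) (α β D m : ℤ) (g g' : ℕ) (w : Wk) (b : ℕ) :
    Prop where
  c0 : CT N w (fc N w α)
  c0l : α ≤ (w (fc N w α)).1
  c0ta : fc N w α ≤ jbTa N α m g w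
  cta : CT N w (jbTa N α m g w)
  ctal : (w (fc N w α)).1 + g * m ≤ (w (jbTa N α m g w)).1
  tab : jbTa N α m g w ≤ b
  tabl : (w b).1 - (w (jbTa N α m g w)).1 < m
  ctd : CT N w (jbTd N (β - 50 * r) m g' w)
  ctdl : (w (jbTd N (β - 50 * r) m g' w)).1 ≤ (w (lc N w (β - 50 * r))).1 - g' * m
  btd : b ≤ jbTd N (β - 50 * r) m g' w
  btdl : (w (jbTd N (β - 50 * r) m g' w)).1 - (w b).1 < m
  c1 : CT N w (lc N w (β - 50 * r))
  tdc1 : jbTd N (β - 50 * r) m g' w ≤ lc N w (β - 50 * r)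

theorem jb_facts {L : PL} {N : ℕ} {r : ℤ} {τ : ℕ} {α β D : ℤ} {j : ℕ} {w : Wk} {b g g' : ℕ}
    (h : Ob L N r τ α β D j w b)
    (hg1 : (g : ℤ) * l0 j ≤ (w b).1 - (w (fc N w α)).1)
    (hg2 : (w b).1 - (w (fc N w α)).1 < ((g : ℤ) + 1) * l0 j)
    (hg1' : (g' : ℤ) * l0 j ≤ (w (lc N w (β - 50 * r))).1 - (w b).1)
    (hg2' : (w (lc N w (β - 50 * r))).1 - (w b).1 < ((g' : ℤ) + 1) * l0 j) :
    JbF L N r τ α β D (l0 j) g g' w b := by
  obtain ⟨hm1, hm2, hm3⟩ := jb_l0 j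
  obtain ⟨a1, a2, a3⟩ := jb_fc_spec h.cb h.cb1
  obtain ⟨b1, b2, b3⟩ := jb_lc_spec h.cb h.cb2
  obtain ⟨c1, c2, c3⟩ := jb_fc_spec (x := (w (fc N w α)).1 + g * l0 j) h.cb (by linarith)
  obtain ⟨d1, d2, d3⟩ := jb_lc_spec (x := (w (lc N w (β - 50 * r))).1 - g' * l0 j) h.cb
    (by linarith)
  have hgm : 0 ≤ (g : ℤ) * l0 j := mul_nonneg (Int.natCast_nonneg _) (by omega)
  have hgm' : 0 ≤ (g' : ℤ) * l0 j := mul_nonneg (Int.natCast_nonneg _) (by omega)
  exact
    { c0 := a1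
      c0l := a2
      c0ta := by
        unfold jbTa
        exact jb_ct_le a1 c1 (by linarith)
      cta := c1
      ctal := c2
      tab := c3
      tabl := by
        unfold jbTa
        linarith
      ctd := d1
      ctdl := d2
      btd := d3
      btdl := by
        unfold jbTd
        linarith
      c1 := b1
      tdc1 := by
        unfold jbTd
        exact jb_ct_le d1 b1 (by linarith) }

theorem jb_FM {L : PL} {N : ℕ} {r : ℤ} {τ : ℕ} {α β D : ℤ} {j : ℕ} {w : Wk} {b g g' : ℕ}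
    (h : Ob L N r τ α β D j w b) (f : JbF L N r τ α β D (l0 j) g g' w b) :
    FM L N (l0 j) (jbTa N α (l0 j) g w) (jbTd N (β - 50 * r) (l0 j) g' w) w w b where
  cl :=
    { br := h.br
      cta := f.cta
      ctd := f.ctd
      pre := fun _ _ => rfl
      suf := fun i _ => by
        ext
        · simp
        · rfl }
  h1 := f.tab
  h2 := f.btd
  cj := h.cb
  w1 := f.tabl
  w2 := f.btdl
  ls := by
    intro i k hik hkN hor heq
    rcases Nat.lt_or_ge b k with hbk | hbk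
    · rcases Nat.lt_or_ge b i with hbi | hbi
      · rw [rf_gt hbi, rf_gt hbk] at heq
        have h1 := congrArg Prod.fst heq
        have h2 := congrArg Prod.snd heq
        simp only at h1 h2
        have h3 : w i = w k := by
          ext
          · omega
          · exact h2
        have := h.br.saw.inj i k (by omega) hkN h3
        omega
      · rw [rf_le hbi, rf_gt hbk] at heq
        rcases hor with hor | hor
        · have h1 : (w (jbTa N α (l0 j) g w)).1 ≤ (w i).1 := by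
            rcases Nat.eq_or_lt_of_le hor with h2 | h2
            · rw [h2]
            · have := f.cta.2.2 i h2
              omega
          have h2 := f.tabl
          exact h.o8 i k hbi hbk hkN (by omega) heq
        · have h1 := f.ctd.2.1 k hor
          have h2 := f.btdl
          have h3 := congrArg Prod.fst heq
          simp only at h3
          exact h.o8 i k hbi hbk hkN (by omega) heq
    · rw [rf_le (by omega), rf_le hbk] at heq
      have := h.br.saw.inj i k (by omega) hkN heq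
      omega

/-- the walks of the class have the same marks -/
theorem jb_same {L : PL} (h_MST : St_MST L) {N : ℕ} {r : ℤ} {τ : ℕ} {α β D : ℤ} {j : ℕ} {w : Wk}
    {b g g' : ℕ} (hr : 1 ≤ r) (hj : (2 : ℤ) ^ j ≤ r)
    (h : Ob L N r τ α β D j w b) (f : JbF L N r τ α β D (l0 j) g g' w b) {v : Wk}
    (hv : Cl L N (jbTa N α (l0 j) g w) (jbTd N (β - 50 * r) (l0 j) g' w) w v)
    (hv3 : (v (jbTd N (β - 50 * r) (l0 j) g' w)).1 < (v (jbTa N α (l0 j) g w)).1 + 3 * l0 j) :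
    jbKey L N α (β - 50 * r) (l0 j) g g' v = jbKey L N α (β - 50 * r) (l0 j) g g' w := by
  obtain ⟨hm1, hm2, hm3⟩ := jb_l0 j
  obtain ⟨ta, hta⟩ : ∃ ta, jbTa N α (l0 j) g w = ta := ⟨_, rfl⟩
  obtain ⟨td, htd⟩ : ∃ td, jbTd N (β - 50 * r) (l0 j) g' w = td := ⟨_, rfl⟩
  have hab : ta ≤ td := by
    rw [← hta, ← htd]
    exact f.tab.trans f.btd
  have fcta := f.cta
  have fctd := f.ctd
  have fctal := f.ctal
  have fctdl := f.ctdl
  have fc0ta := f.c0ta
  have ftdc1 := f.tdc1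
  have ftabl := f.tabl
  have fbtdl := f.btdl
  rw [hta] at fcta fctal fc0ta ftabl hv hv3
  rw [htd] at fctd fctdl ftdc1 fbtdl hv hv3
  have M := h_MST N ta td w v hv h.br fcta fctd hab
  have hgm : 0 ≤ (g : ℤ) * l0 j := mul_nonneg (Int.natCast_nonneg _) (by omega)
  have hgm' : 0 ≤ (g' : ℤ) * l0 j := mul_nonneg (Int.natCast_nonneg _) (by omega)
  -- the first mark
  have e1 : fc N v α = fc N w α := (M.m3 α (by linarith [f.c0l])).1
  have e2 : (v (fc N w α)).1 = (w (fc N w α)).1 := by rw [hv.pre _ fc0ta]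
  have e3 : jbTa N α (l0 j) g v = ta := by
    unfold jbTa
    rw [e1, e2, (M.m3 _ fctal).1]
    exact hta
  -- the shift
  have hvta : (v ta).1 = (w ta).1 := by rw [hv.pre _ le_rfl]
  have hvtd : (v ta).1 ≤ (v td).1 := hv.ctd.2.1 ta hab
  have hwtd : (w ta).1 ≤ (w td).1 := fctd.2.1 ta hab
  have hwb1 : (w td).1 < (w ta).1 + 2 * l0 j := by linarith
  -- the last mark
  have e4 : (v (lc N w (β - 50 * r))).1 = (w (lc N w (β - 50 * r))).1 +
      ((v td).1 - (w td).1) := by rw [hv.suf _ ftdc1]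
  have e5 : lc N v (β - 50 * r) = lc N w (β - 50 * r) := by
    apply jb_lc_eq
    · exact (M.m2 _ ftdc1).2 f.c1
    · rw [e4]
      have := h.o6
      linarith
    · intro t ht hct
      have h1 : CT N w t := (M.m2 t (by omega)).1 hct
      have h2 := h.o5 t h1 ht
      rw [hv.suf t (by omega)]
      simp only
      linarith
  have e6 : jbTd N (β - 50 * r) (l0 j) g' v = td := by
    unfold jbTd
    rw [e5, e4]
    have h1 := (M.m4 _ fctdl).1
    have h2 : (w (lc N w (β - 50 * r))).1 + ((v td).1 - (w td).1) - (g' : ℤ) * l0 j =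
        (w (lc N w (β - 50 * r))).1 - g' * l0 j + ((v td).1 - (w td).1) := by ring
    rw [h2, h1]
    exact htd
  unfold jbKey
  rw [e3, e6, hta, htd, M.eq]

theorem p_JB (L : PL) (h_T7 : St_T7 L) (h_MST : St_MST L) : St_JB L := by
  classical
  intro N r τ α β D Φ j hr hα hD hj hInv
  obtain ⟨hm1, hm2, hm3⟩ := jb_l0 j
  obtain ⟨m, hm⟩ : ∃ m, l0 j = m := ⟨_, rfl⟩
  -- membership
  have hmem : ∀ c : Wk × ℕ, c ∈ OA L N r τ α β D Φ j ↔
      (c.1 ∈ BrF L N ∧ c.2 ∈ Finset.range N) ∧ Φ c.1 ∧ Ob L N r τ α β D j c.1 c.2 := by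
    intro c
    unfold OA
    rw [Finset.mem_filter, Finset.mem_product]
  have hmemX : ∀ v : Wk, v ∈ XF L N Φ ↔ BrA L.adj N v ∧ Φ v := by
    intro v
    unfold XF
    rw [Finset.mem_filter, mem_BrF]
  obtain ⟨T, hT, hTc⟩ : ∃ T : Finset (ℕ × ℕ), (∀ q, q ∈ T ↔ q.1 < 81 ∧ q.2 < 17) ∧
      T.card = 1377 := by
    refine ⟨Finset.range 81 ×ˢ Finset.range 17, fun q => ?_, ?_⟩
    · rw [Finset.mem_product, Finset.mem_range, Finset.mem_range]
    · rw [Finset.card_product, Finset.card_range, Finset.card_range]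
  -- the labels
  obtain ⟨lab, hlab⟩ : ∃ lab : Wk × ℕ → ℕ × ℕ, ∀ c, lab c =
      ((((c.1 c.2).1 - (c.1 (fc N c.1 α)).1) / l0 j).toNat,
        (((c.1 (lc N c.1 (β - 50 * r))).1 - (c.1 c.2).1) / l0 j).toNat) := ⟨_, fun _ => rfl⟩
  have hlabF : ∀ c ∈ OA L N r τ α β D Φ j,
      lab c ∈ T ∧
      JbF L N r τ α β D (l0 j) (lab c).1 (lab c).2 c.1 c.2 := by
    intro c hc
    have hOb := ((hmem c).1 hc).2.2
    have h1 : (c.1 (fc N c.1 α)).1 ≤ (c.1 c.2).1 :=
      hOb.cb.2.1 _ (jb_fc_spec hOb.cb hOb.cb1).2.2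
    have h2 : (c.1 c.2).1 ≤ (c.1 (lc N c.1 (β - 50 * r))).1 :=
      (jb_lc_spec hOb.cb hOb.cb2).1.2.1 _ (jb_lc_spec hOb.cb hOb.cb2).2.2
    have o1 := hOb.o1
    have o2 := hOb.o2
    obtain ⟨x, hx⟩ : ∃ x, (c.1 c.2).1 - (c.1 (fc N c.1 α)).1 = x := ⟨_, rfl⟩
    obtain ⟨y, hy⟩ : ∃ y, (c.1 (lc N c.1 (β - 50 * r))).1 - (c.1 c.2).1 = y := ⟨_, rfl⟩
    have hx0 : 0 ≤ x := by omega
    have hy0 : 0 ≤ y := by omega
    have hmpos : 0 < l0 j := by omega
    have hdx : 0 ≤ x / l0 j := Int.ediv_nonneg hx0 hmpos.le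
    have hdy : 0 ≤ y / l0 j := Int.ediv_nonneg hy0 hmpos.le
    have hdx1 : x / l0 j * l0 j ≤ x := Int.ediv_mul_le x hmpos.ne'
    have hdx2 : x < (x / l0 j + 1) * l0 j := Int.lt_ediv_add_one_mul_self x hmpos
    have hdy1 : y / l0 j * l0 j ≤ y := Int.ediv_mul_le y hmpos.ne'
    have hdy2 : y < (y / l0 j + 1) * l0 j := Int.lt_ediv_add_one_mul_self y hmpos
    have hl1 : ((lab c).1 : ℤ) = x / l0 j := by
      rw [hlab, hx]
      exact Int.toNat_of_nonneg hdx
    have hl2 : ((lab c).2 : ℤ) = y / l0 j := by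
      rw [hlab, hy]
      exact Int.toNat_of_nonneg hdy
    refine ⟨?_, ?_⟩
    · rw [hT]
      constructor
      · have h3 : x / l0 j < 81 := by
          rw [Int.ediv_lt_iff_lt_mul hmpos]
          rw [hx] at o1
          omega
        omega
      · have h3 : y / l0 j < 17 := by
          rw [Int.ediv_lt_iff_lt_mul hmpos]
          rw [hy] at o2
          omega
        omega
    · apply jb_facts hOb
      · rw [hl1, hx]
        exact hdx1
      · rw [hl1, hx]
        exact hdx2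
      · rw [hl2, hy]
        exact hdy1
      · rw [hl2, hy]
        exact hdy2
  -- one label
  have hone : ∀ g g' : ℕ,
      (((OA L N r τ α β D Φ j).filter fun c => lab c = (g, g')).card : ℝ) ≤
        Yb (2 * r) τ * ((XF L N Φ).card : ℝ) := by
    intro g g'
    apply jb_fibre _ _ (fun c : Wk × ℕ => jbKey L N α (β - 50 * r) (l0 j) g g' c.1)
      (fun v : Wk => jbKey L N α (β - 50 * r) (l0 j) g g' v) _ (jb_Yb_nonneg _ _)
    intro s hs
    rw [Finset.mem_filter] at hs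
    obtain ⟨hs1, hs2⟩ := hs
    have hOb := ((hmem s).1 hs1).2.2
    have hΦ := ((hmem s).1 hs1).2.1
    have hF := (hlabF s hs1).2
    rw [hs2] at hF
    simp only at hF
    have hT := h_T7 N (l0 j) (jbTa N α (l0 j) g s.1) (jbTd N (β - 50 * r) (l0 j) g' s.1) s.1
      ((((OA L N r τ α β D Φ j).filter fun c => lab c = (g, g'))).filter fun x =>
        jbKey L N α (β - 50 * r) (l0 j) g g' x.1 = jbKey L N α (β - 50 * r) (l0 j) g g' s.1)
      ((XF L N Φ).filter fun v =>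
        jbKey L N α (β - 50 * r) (l0 j) g g' v = jbKey L N α (β - 50 * r) (l0 j) g g' s.1)
      hm1 ?_ ?_ (hF.tab.trans hF.btd) ?_ ?_
    · refine hT.trans (mul_le_mul_of_nonneg_right ?_ (Nat.cast_nonneg _))
      apply jb_Yb_mono
      · omega
      · have h1 := hOb.o3
        have h2 := hF.c0ta
        have h3 := hF.tdc1
        omega
    · have h1 := hF.ctal
      have h2 := hF.c0l
      have hgm : 0 ≤ (g : ℤ) * l0 j := mul_nonneg (Int.natCast_nonneg _) (by omega)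
      linarith
    · have h1 := hF.ctdl
      have h2 := hOb.o7
      have hgm' : 0 ≤ (g' : ℤ) * l0 j := mul_nonneg (Int.natCast_nonneg _) (by omega)
      linarith
    · intro c hc
      rw [Finset.mem_filter, Finset.mem_filter] at hc
      obtain ⟨⟨hc1, hc2⟩, hc3⟩ := hc
      have hObc := ((hmem c).1 hc1).2.2
      have hFc := (hlabF c hc1).2
      rw [hc2] at hFc
      simp only at hFc
      have hFM := jb_FM hObc hFc
      unfold jbKey at hc3
      rw [Prod.mk.injEq, Prod.mk.injEq] at hc3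
      obtain ⟨k1, k2, k3⟩ := hc3
      have hcl : Cl L N (jbTa N α (l0 j) g s.1) (jbTd N (β - 50 * r) (l0 j) g' s.1) s.1 c.1 := by
        rw [← mem_ClF, ← k3, mem_ClF]
        exact hFM.cl
      rw [k1, k2] at hFM
      exact ⟨hcl, hFM.h1, hFM.h2, hFM.cj, hFM.w1, hFM.w2, hFM.ls⟩
    · intro v hv hv3
      rw [Finset.mem_filter, hmemX]
      refine ⟨⟨hv.br, ?_⟩, jb_same h_MST hr hj hOb hF hv hv3⟩
      refine hInv _ _ s.1 v hOb.br hF.cta hF.ctd (hF.tab.trans hF.btd) ?_ ?_ hv hΦ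
      · have h1 := hF.ctal
        have h2 := hF.c0l
        have hgm : 0 ≤ (g : ℤ) * l0 j := mul_nonneg (Int.natCast_nonneg _) (by omega)
        linarith
      · have h1 := hF.ctdl
        have h2 := hOb.o7
        have hgm' : 0 ≤ (g' : ℤ) * l0 j := mul_nonneg (Int.natCast_nonneg _) (by omega)
        linarith
  -- sum over the labels
  have hsum : ((OA L N r τ α β D Φ j).card : ℝ) =
      ∑ q ∈ T, (((OA L N r τ α β D Φ j).filter fun c => lab c = q).card : ℝ) := by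
    rw [Finset.card_eq_sum_card_fiberwise (f := lab) (t := T)
      (fun c hc => Finset.mem_coe.2 (hlabF c hc).1), Nat.cast_sum]
  rw [hsum]
  refine (Finset.sum_le_sum fun q _ => hone q.1 q.2).trans (le_of_eq ?_)
  rw [Finset.sum_const, hTc, nsmul_eq_mul]
  push_cast
  ring

end Pool.Agent.H979R2.NP
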