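import Pool.Agent.H979R2.NP.Stubs

/-!
# The number of refoldable pairs
-/

set_option autoImplicit false

namespace Pool.Agent.H979R2.NP

open Pool.Agent.H977R3 (Wk rf tm LS CT rf_le rf_gt tm_le tm_mid tm_gt rf_rf rf_tm_left rf_tm_right
  tm_tm tm_self)

theorem jp_Yb_nonneg (l : ℤ) (n : ℕ) : 0 ≤ Yb l n := by
  unfold Yb
  have : 0 ≤ Real.log ((n : ℝ) + 1) := Real.log_nonneg (by
    have : (0 : ℝ) ≤ n := Nat.cast_nonneg n
    linarith)
  positivity

theorem p_JP (L : PL) (h_JA : St_JA L) (h_JB : St_JB L) : St_JP L := by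
  classical
  intro N r τ α β D Φ R hr hα hD hInv hR
  have hY := jp_Yb_nonneg (2 * r) τ
  have hrt : ((r.toNat : ℕ) : ℤ) = r := Int.toNat_of_nonneg (by omega)
  have hsub : R ⊆ (Finset.range (Nat.log 2 r.toNat + 1)).biUnion
      (fun j => RF L N r τ α β D Φ j) := by
    intro c hc
    obtain ⟨hΦ, hRp⟩ := hR c hc
    have haN : c.2.1 < N := hRp.ca.1
    have hbN : c.2.2 < N := hRp.cb.1
    have hs1 : (1 : ℤ) ≤ (c.1 c.2.2).1 - (c.1 c.2.1).1 := by
      have := hRp.ca.2.2 c.2.2 hRp.ab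
      omega
    set s : ℤ := (c.1 c.2.2).1 - (c.1 c.2.1).1 with hs
    have hsr : s < r := hRp.sr
    have hst : ((s.toNat : ℕ) : ℤ) = s := Int.toNat_of_nonneg (by omega)
    have hs0 : s.toNat ≠ 0 := by omega
    rw [Finset.mem_biUnion]
    refine ⟨Nat.log 2 s.toNat, ?_, ?_⟩
    · rw [Finset.mem_range]
      have : Nat.log 2 s.toNat ≤ Nat.log 2 r.toNat := Nat.log_mono_right (by omega)
      omega
    · unfold RF
      rw [Finset.mem_filter, Finset.mem_product, Finset.mem_product, Finset.mem_range,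
        Finset.mem_range, mem_BrF]
      refine ⟨⟨hRp.br, haN, hbN⟩, hΦ, hRp, ?_, ?_⟩
      · have h1 := Nat.pow_log_le_self 2 hs0
        rw [← hs, ← hst]
        exact_mod_cast h1
      · have h1 := Nat.lt_pow_succ_log_self (b := 2) (by norm_num) s.toNat
        rw [← hs, ← hst]
        exact_mod_cast h1
  have hj : ∀ j ∈ Finset.range (Nat.log 2 r.toNat + 1), ((RF L N r τ α β D Φ j).card : ℝ) ≤
      23409 * (Yb (2 * r) τ) ^ 2 * ((XF L N Φ).card : ℝ) := by
    intro j hj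
    rw [Finset.mem_range] at hj
    have h2 : (2 : ℤ) ^ j ≤ r := by
      have h3 : 2 ^ j ≤ r.toNat := by
        calc 2 ^ j ≤ 2 ^ (Nat.log 2 r.toNat) := Nat.pow_le_pow_right (by norm_num) (by omega)
          _ ≤ r.toNat := Nat.pow_log_le_self 2 (by omega)
      rw [← hrt]
      exact_mod_cast h3
    have hA := h_JA N r τ α β D Φ j hr hα hD hInv
    have hB := h_JB N r τ α β D Φ j hr hα hD h2 hInv
    calc ((RF L N r τ α β D Φ j).card : ℝ)
        ≤ 17 * Yb (2 * r) τ * ((OA L N r τ α β D Φ j).card : ℝ) := hA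
      _ ≤ 17 * Yb (2 * r) τ * (1377 * Yb (2 * r) τ * ((XF L N Φ).card : ℝ)) :=
          mul_le_mul_of_nonneg_left hB (by positivity)
      _ = 23409 * (Yb (2 * r) τ) ^ 2 * ((XF L N Φ).card : ℝ) := by ring
  have hcard : (R.card : ℝ) ≤ ∑ j ∈ Finset.range (Nat.log 2 r.toNat + 1),
      ((RF L N r τ α β D Φ j).card : ℝ) := by
    have h1 := (Finset.card_le_card hsub).trans Finset.card_biUnion_le
    exact_mod_cast h1
  have hsum := hcard.trans (Finset.sum_le_sum hj)
  rw [Finset.sum_const, Finset.card_range, nsmul_eq_mul] at hsum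
  push_cast at hsum
  refine hsum.trans ?_
  have h5 : 0 ≤ ((Nat.log 2 r.toNat : ℝ) + 1) * ((Yb (2 * r) τ) ^ 2 * ((XF L N Φ).card : ℝ)) := by
    positivity
  nlinarith [h5]

end Pool.Agent.H979R2.NP
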