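import Pool.Agent.H979R2.NP.Stubs

/-!
# Planar input for the almost power law: stability of the marks in a class
-/

set_option autoImplicit false

namespace Pool.Agent.H979R2.NP

open Pool.Agent.H977R3 (Wk rf tm LS CT rf_le rf_gt tm_le tm_mid tm_gt rf_rf rf_tm_left rf_tm_right
  tm_tm tm_self)

/-- cut times, unfolded -/
theorem mst_ct (N : ℕ) (w : Wk) (t : ℕ) : CT N w t ↔
    (t < N ∧ (∀ i, i ≤ t → (w i).1 ≤ (w t).1) ∧ (∀ i, t < i → (w t).1 + 1 ≤ (w i).1)) :=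
  Iff.rfl

/-- cut times before `ta` -/
theorem mst_pre {N ta : ℕ} {w w' : Wk} (h : CT N w' ta)
    (hp : ∀ i, i ≤ ta → w i = w' i) {t : ℕ} (ht : t ≤ ta) (hc : CT N w t) : CT N w' t := by
  rw [mst_ct] at h hc ⊢
  obtain ⟨a1, a2, a3⟩ := h
  obtain ⟨b1, b2, b3⟩ := hc
  refine ⟨b1, fun i hi => ?_, fun i hi => ?_⟩
  · rw [← hp i (by omega), ← hp t ht]
    exact b2 i hi
  · rcases le_or_gt i ta with h | h
    · rw [← hp i h, ← hp t ht]
      exact b3 i hi
    · have h1 := a3 i h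
      have h2 := a2 t ht
      omega

/-- cut times after `td` -/
theorem mst_suf {N td : ℕ} {w w' : Wk} {s : ℤ} (h : CT N w' td)
    (hs : ∀ i, td ≤ i → (w i).1 = (w' i).1 + s) {t : ℕ} (ht : td ≤ t) (hc : CT N w t) :
    CT N w' t := by
  rw [mst_ct] at h hc ⊢
  obtain ⟨a1, a2, a3⟩ := h
  obtain ⟨b1, b2, b3⟩ := hc
  have ht' := hs t ht
  have htd := hs td le_rfl
  refine ⟨b1, fun i hi => ?_, fun i hi => ?_⟩
  · rcases le_or_gt td i with h | h
    · have h1 := hs i h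
      have h2 := b2 i hi
      omega
    · have h1 := a2 i h.le
      have h2 := b2 td ht
      omega
  · have h1 := hs i (by omega)
    have h2 := b3 i hi
    omega

theorem mst_fc_le {N ta : ℕ} {w w' : Wk} (h : CT N w ta) (h' : CT N w' ta)
    (hp : ∀ i, i ≤ ta → w i = w' i) {x : ℤ} (hx : x ≤ (w' ta).1) :
    fc N w x ≤ fc N w' x ∧ fc N w' x ≤ ta := by
  classical
  have hmem : ta ∈ {t | CT N w' t ∧ x ≤ (w' t).1} := ⟨h', hx⟩
  have h1 : fc N w' x ≤ ta := Nat.sInf_le hmem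
  have h2 : fc N w' x ∈ {t | CT N w' t ∧ x ≤ (w' t).1} := Nat.sInf_mem ⟨ta, hmem⟩
  refine ⟨?_, h1⟩
  have h3 : CT N w (fc N w' x) := mst_pre h (fun i hi => (hp i hi).symm) h1 h2.1
  have h4 : x ≤ (w (fc N w' x)).1 := by
    rw [hp _ h1]
    exact h2.2
  exact Nat.sInf_le (s := {t | CT N w t ∧ x ≤ (w t).1}) ⟨h3, h4⟩

theorem mst_lc_le {N td : ℕ} {w w' : Wk} {s : ℤ} (h : CT N w td) (h' : CT N w' td)
    (hs : ∀ i, td ≤ i → (w i).1 = (w' i).1 + s) {x : ℤ} (hx : (w' td).1 ≤ x) :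
    lc N w' x ≤ lc N w (x + s) ∧ td ≤ lc N w' x := by
  classical
  have htd : td ≤ N := ((mst_ct N w td).1 h).1.le
  have h1 : td ≤ lc N w' x := by
    unfold lc
    exact Nat.le_findGreatest htd ⟨h', hx⟩
  have h2 : CT N w' (lc N w' x) ∧ (w' (lc N w' x)).1 ≤ x := by
    unfold lc
    exact Nat.findGreatest_spec (P := fun t => CT N w' t ∧ (w' t).1 ≤ x) htd ⟨h', hx⟩
  refine ⟨?_, h1⟩
  have h3 : CT N w (lc N w' x) := mst_suf h (s := -s)
    (fun i hi => by have := hs i hi; omega) h1 h2.1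
  have h4 : (w (lc N w' x)).1 ≤ x + s := by
    have := hs _ h1
    have := h2.2
    omega
  have h5 : lc N w' x ≤ N := Nat.findGreatest_le N
  conv_rhs => unfold lc
  exact Nat.le_findGreatest h5 ⟨h3, h4⟩

theorem mst_trans {L : PL} {N ta td : ℕ} {a b c : Wk} (h : Cl L N ta td a b)
    (h' : Cl L N ta td b c) : Cl L N ta td a c := by
  refine ⟨h'.br, h'.cta, h'.ctd, fun i hi => (h'.pre i hi).trans (h.pre i hi), fun i hi => ?_⟩
  rw [h'.suf i hi, h.suf i hi]
  ext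
  · simp only
    ring
  · simp only

theorem p_MST (L : PL) : St_MST L := by
  intro N ta td w₀ w hcl hbr hta htd hle
  have hsym : Cl L N ta td w w₀ := by
    refine ⟨hbr, hta, htd, fun i hi => (hcl.pre i hi).symm, fun i hi => ?_⟩
    rw [hcl.suf i hi]
    ext
    · simp only
      ring
    · simp only
  have hs : ∀ i, td ≤ i → (w i).1 = (w₀ i).1 + ((w td).1 - (w₀ td).1) := fun i hi => by
    have := hcl.suf i hi
    exact congrArg Prod.fst this
  have hs' : ∀ i, td ≤ i → (w₀ i).1 = (w i).1 + ((w₀ td).1 - (w td).1) := fun i hi => by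
    have := hs i hi
    omega
  refine ⟨fun t ht => ⟨fun h => mst_pre hta hcl.pre ht h, fun h => mst_pre hcl.cta hsym.pre ht h⟩,
    fun t ht => ⟨fun h => mst_suf htd hs ht h, fun h => mst_suf hcl.ctd hs' ht h⟩,
    fun x hx => ?_, fun x hx => ?_, hsym, ?_⟩
  · have h1 := mst_fc_le hcl.cta hta hcl.pre hx
    have h2 := mst_fc_le hta hcl.cta hsym.pre (x := x) (by rw [hcl.pre ta le_rfl]; exact hx)
    exact ⟨le_antisymm h1.1 h2.1, h1.2⟩
  · have h1 := mst_lc_le hcl.ctd htd hs hx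
    have h2 := mst_lc_le htd hcl.ctd hs' (x := x + ((w td).1 - (w₀ td).1)) (by omega)
    have h3 : x + ((w td).1 - (w₀ td).1) + ((w₀ td).1 - (w td).1) = x := by omega
    rw [h3] at h2
    exact ⟨le_antisymm h2.1 h1.1, h1.2⟩
  · ext v
    rw [mem_ClF, mem_ClF]
    exact ⟨fun h => mst_trans hcl h, fun h => mst_trans hsym h⟩

end Pool.Agent.H979R2.NP
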