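import Pool.Agent.H979R2.NP.Stubs

/-!
# One decoding step for closed windows
-/

set_option autoImplicit false

namespace Pool.Agent.H979R2.NP

open Pool.Agent.H977R3 (Wk rf tm LS CT rf_le rf_gt tm_le tm_mid tm_gt rf_rf rf_tm_left rf_tm_right
  tm_tm tm_self)
open Pool.Agent.H725R2.SB (NC BT Light IsCut Cut)

theorem one_Yb_nonneg (l : ℤ) (n : ℕ) : 0 ≤ Yb l n := by
  unfold Yb
  have : 0 ≤ Real.log ((n : ℝ) + 1) := Real.log_nonneg (by
    have : (0 : ℝ) ≤ n := Nat.cast_nonneg n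
    linarith)
  positivity

theorem one_Yb_mono {l l' : ℤ} (h : l ≤ l') (n : ℕ) : Yb l n ≤ Yb l' n := by
  unfold Yb
  have h0 : 0 ≤ Real.log ((n : ℝ) + 1) := Real.log_nonneg (by
    have : (0 : ℝ) ≤ n := Nat.cast_nonneg n
    linarith)
  have h1 : Nat.log 2 l.toNat ≤ Nat.log 2 l'.toNat :=
    Nat.log_mono_right (Int.toNat_le_toNat h)
  have h2 : (Nat.log 2 l.toNat : ℝ) ≤ (Nat.log 2 l'.toNat : ℝ) := by exact_mod_cast h1
  gcongr

theorem p_ONE (L : PL) (h_UNF : St_UNF L) (h_INV : St_INV L) (h_JP : St_JP L) : St_ONE L := by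
  classical
  intro N r w τ i I hr hw hi hI
  set Y := XI L N r w τ (insert i I) with hY
  set Φ : Wk → Prop := fun ξ => ∀ j ∈ I, NCd (lv ξ) N r w τ j with hΦ
  let core : Wk → Finset ℤ := fun ξ =>
    (Finset.Ioc (4 * (w : ℤ) * i + w) (4 * (w : ℤ) * i + 3 * w)).filter
      (fun p => Light (lv ξ) N r p)
  let S : Finset (Σ _ : Wk, ℤ) := Y.sigma core
  have hS : Y.card * w ≤ S.card := by
    rw [Finset.card_sigma, ← smul_eq_mul, ← Finset.sum_const]
    refine Finset.sum_le_sum (fun ξ hξ => ?_)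
    rw [hY] at hξ
    unfold XI at hξ
    rw [Finset.mem_filter] at hξ
    exact (hξ.2 i (Finset.mem_insert_self _ _)).2.1.2
  have hex : ∀ x ∈ S, ∃ t t', BT (lv x.1) N x.2 t t' ∧ lv x.1 t - lv x.1 t' < r := by
    intro x hx
    rw [Finset.mem_sigma, Finset.mem_filter] at hx
    exact hx.2.2
  choose! T T' hBT hsz using hex
  let F : (Σ _ : Wk, ℤ) → Wk × ℕ × ℕ := fun x => (tm x.1 (T x) (T' x), T x, T' x)
  let R : Finset (Wk × ℕ × ℕ) := S.image F
  have hR : ∀ c ∈ R, Φ c.1 ∧ Rp L N r τ (4 * (w : ℤ) * i) (4 * (w : ℤ) * (i + 1))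
      (4 * (w : ℤ)) c.1 c.2.1 c.2.2 := by
    intro c hc
    obtain ⟨x, hx, rfl⟩ := Finset.mem_image.mp hc
    have hx' := hx
    rw [Finset.mem_sigma, Finset.mem_filter, Finset.mem_Ioc] at hx'
    have h := h_UNF N r w τ i I x.1 x.2 (T x) (T' x) hr hw hi hI hx'.1 hx'.2.1.1 hx'.2.1.2
      (hBT x hx) (hsz x hx)
    refine ⟨?_, h.2⟩
    have h1 := h.1
    unfold XI at h1
    rw [Finset.mem_filter] at h1
    exact h1.2
  have hcard : S.card ≤ R.card * r := by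
    have hmaps : ∀ x ∈ S, (F x, (lv x.1 (T x) - x.2).toNat) ∈ R ×ˢ Finset.range r := by
      intro x hx
      have h1 := hsz x hx
      have h2 := (hBT x hx).p1
      have h3 := (hBT x hx).p2
      rw [Finset.mem_product]
      refine ⟨Finset.mem_image_of_mem F hx, ?_⟩
      simp only [Finset.mem_range]
      omega
    have hinj : ∀ x ∈ S, ∀ y ∈ S, (F x, (lv x.1 (T x) - x.2).toNat) =
        (F y, (lv y.1 (T y) - y.2).toNat) → x = y := by
      intro x hx y hy hxy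
      simp only [F, Prod.mk.injEq] at hxy
      obtain ⟨⟨h1, h2, h3⟩, h4⟩ := hxy
      have hξ : x.1 = y.1 := by
        have e1 : tm (tm x.1 (T x) (T' x)) (T x) (T' x) = x.1 := tm_tm (hBT x hx).le
        have e2 : tm (tm y.1 (T y) (T' y)) (T y) (T' y) = y.1 := tm_tm (hBT y hy).le
        rw [h1, h2, h3, e2] at e1
        exact e1.symm
      have h5 := (hBT x hx).p2
      have h6 := (hBT y hy).p2
      have hp : x.2 = y.2 := by
        rw [h2, hξ] at h4 h5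
        omega
      exact Sigma.ext hξ (heq_of_eq hp)
    have := Finset.card_le_card_of_injOn (s := S) (t := R ×ˢ Finset.range r)
      (fun x => (F x, (lv x.1 (T x) - x.2).toNat)) hmaps (fun x hx y hy h => hinj x hx y hy h)
    rw [Finset.card_product, Finset.card_range] at this
    exact this
  have hw1 : (1 : ℤ) ≤ w := by
    have : 1 ≤ w := by omega
    exact_mod_cast this
  have hrw : (400 : ℤ) * r ≤ w := by exact_mod_cast hw
  have hi1 : (1 : ℤ) ≤ i := by exact_mod_cast hi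
  have hr1 : (1 : ℤ) ≤ r := by exact_mod_cast hr
  have hα : 2 * (r : ℤ) ≤ 4 * (w : ℤ) * i := by nlinarith
  have hD : 2 * (r : ℤ) ≤ 4 * (w : ℤ) := by omega
  have hInv := h_INV N r w τ i I hr (by omega) hI
  have hJ := h_JP N r τ (4 * (w : ℤ) * i) (4 * (w : ℤ) * (i + 1)) (4 * (w : ℤ)) Φ R hr1 hα hD
    hInv hR
  have hXF : XF L N Φ = XI L N r w τ I := by
    unfold XF XI
    ext u
    simp only [Finset.mem_filter, hΦ]
  rw [hXF, Int.toNat_natCast] at hJ
  have hY1 : Yb (2 * (r : ℤ)) τ ≤ Yb (4 * (r : ℤ)) τ := one_Yb_mono (by omega) τ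
  have hY0 := one_Yb_nonneg (2 * (r : ℤ)) τ
  have hY2 : (Yb (2 * (r : ℤ)) τ) ^ 2 ≤ (Yb (4 * (r : ℤ)) τ) ^ 2 :=
    pow_le_pow_left₀ hY0 hY1 2
  have h1 : ((Y.card : ℕ) : ℝ) * w ≤ (R.card : ℝ) * r := by
    exact_mod_cast hS.trans hcard
  calc (Y.card : ℝ) * w ≤ (R.card : ℝ) * r := h1
    _ ≤ (10 ^ 6 * ((Nat.log 2 r : ℝ) + 1) * (Yb (2 * (r : ℤ)) τ) ^ 2 *
        ((XI L N r w τ I).card : ℝ)) * r := mul_le_mul_of_nonneg_right hJ (by positivity)
    _ ≤ (10 ^ 6 * ((Nat.log 2 r : ℝ) + 1) * (Yb (4 * (r : ℤ)) τ) ^ 2 *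
        ((XI L N r w τ I).card : ℝ)) * r := by gcongr
    _ = D0 r τ * ((XI L N r w τ I).card : ℝ) := by
        unfold D0
        ring

end Pool.Agent.H979R2.NP
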