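import Pool.Agent.H979R2.NP.Stubs
import Pool.Agent.H977R3.Plan

/-! SQR: the square lattice as a planar lattice with vertical mirrors. -/

set_option autoImplicit false

namespace Pool.Agent.H979R2.NP

open Pool.Agent.H977R3 (Wk rf tm LS CT rf_le rf_gt tm_le tm_mid tm_gt rf_rf rf_tm_left rf_tm_right
  tm_tm tm_self)

theorem sqr_up_tm (w : Wk) (t t' : ℕ) (htt : t < t') (h : Pool.Agent.H977R2.Up w t)
    (h' : Pool.Agent.H977R2.Up w t') :
    Pool.Agent.H977R2.Up (tm w t t') t ∧ Pool.Agent.H977R2.Up (tm w t t') t' := by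
  obtain ⟨h1, h2⟩ := h
  obtain ⟨h1', h2'⟩ := h'
  refine ⟨⟨h1, ?_⟩, ⟨h1', ?_⟩⟩
  · rw [tm_le (by omega), tm_le le_rfl]
    exact h2
  · rcases Nat.eq_or_lt_of_le (show t ≤ t' - 1 by omega) with h3 | h3
    · rw [tm_le (show t' - 1 ≤ t by omega), tm_mid htt le_rfl]
      have h4 : w t = ((w t').1, (w t').2 - 1) := by
        rw [← h2', ← h3]
      rw [← h3, h4]
      ext
      · simp only
        omega
      · rfl
    · rw [tm_mid h3 (by omega), tm_mid htt le_rfl, h2']

theorem sqr_fold_up (N : ℕ) (w : Wk) (t : ℕ) (hw : SawA Pool.Agent.H977R2.Adj N w)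
    (hc : CT N w t) (ht : 1 ≤ t) (hne : rf w t (t - 1) ≠ rf w t (t + 1)) :
    Pool.Agent.H977R2.Up w t ∨ Pool.Agent.H977R2.Up (vm w) t := by
  obtain ⟨h1, h2, h3⟩ := hc
  have a1 := hw.adj t h1
  have a2 := hw.adj (t - 1) (by omega)
  rw [show t - 1 + 1 = t by omega] at a2
  have b1 := h3 (t + 1) (by omega)
  have b2 := h2 (t - 1) (by omega)
  rw [rf_le (show t - 1 ≤ t by omega), rf_gt (show t < t + 1 by omega)] at hne
  have hne' : ¬ ((w (t - 1)).1 = 2 * (w t).1 - (w (t + 1)).1 ∧ (w (t - 1)).2 = (w (t + 1)).2) := by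
    intro h
    apply hne
    ext
    · exact h.1
    · exact h.2
  unfold Pool.Agent.H977R2.Adj at a1 a2
  have key : (w (t - 1)).1 = (w t).1 ∧
      ((w (t - 1)).2 = (w t).2 - 1 ∨ (w (t - 1)).2 = (w t).2 + 1) := by omega
  rcases key.2 with h4 | h4
  · left
    refine ⟨ht, ?_⟩
    ext
    · exact key.1
    · exact h4
  · right
    refine ⟨ht, ?_⟩
    unfold vm
    ext
    · exact key.1
    · simp only
      omega

theorem sqr_ct_le {N : ℕ} {w : Wk} {t t' : ℕ} (h : CT N w t) (h' : CT N w t')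
    (hle : (w t).1 ≤ (w t').1) : t ≤ t' := by
  by_contra hcon
  have := h'.2.2 t (by omega)
  omega

theorem sqr_planar : PlanarStmt Pool.Agent.H977R2.Adj Pool.Agent.H977R2.Up := by
  intro N l ta td t t' w hbr hta htd hl1 hl2 h htt hop
  have hl : 0 < l := by
    have h1 := h.gf.mx ta h.gf.h1
    have h2 := h.gf.win
    omega
  have hle : ta ≤ td := h.gf.h1.trans (h.le.trans h.gb.h2)
  have hsaw : Pool.Agent.H977R2.Saw N w := ⟨hbr.saw.zero, hbr.saw.adj, hbr.saw.inj, hbr.saw.const⟩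
  have hPQ : Pool.Agent.H977R3.PQ N l (w ta).1 ((w N).1 - (w td).1) ta td w t t' :=
    { om :=
        { br := ⟨hsaw, hbr.pos, hbr.le⟩
          cta := hta
          ctd := htd
          le := hle
          a1 := le_rfl
          a2 := by omega
          amin := fun s hs hs' => sqr_ct_le hta hs hs'
          b1 := le_rfl
          b2 := by omega
          bmax := fun s hs hs' => sqr_ct_le hs htd (by omega) }
      gf := ⟨h.gf.h1, h.gf.h2, h.gf.up, h.gf.mx, h.gf.win, h.gf.ls⟩
      gb := ⟨h.gb.h1, h.gb.h2, h.gb.up, h.gb.mn, h.gb.win, h.gb.ls⟩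
      le := h.le
      c1 := h.c1
      c2 := h.c2 }
  exact Pool.Agent.H977R3.planar2 hl1 hl2 hPQ htt hop

/-- the square lattice -/
noncomputable def sqr : PL where
  adj := Pool.Agent.H977R2.Adj
  up := Pool.Agent.H977R2.Up
  adj_x := fun _ _ h => h.abs_fst
  adj_y := fun _ _ h => h.abs_snd
  mir := by
    intro p q c h
    unfold Pool.Agent.H977R2.Adj at *
    simp only
    omega
  tra := by
    intro p q c h
    unfold Pool.Agent.H977R2.Adj at *
    simp only
    omega
  vmir := by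
    intro p q h
    unfold Pool.Agent.H977R2.Adj at *
    simp only
    omega
  up_pos := fun _ _ h => h.1
  up_tm := sqr_up_tm
  fold_up := sqr_fold_up
  planar := sqr_planar

end Pool.Agent.H979R2.NP
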