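import Pool.Agent.H979R2.NP.Stubs

/-! Task T7 (helper153): foldable cut times in one class. -/

set_option autoImplicit false

namespace Pool.Agent.H979R2.NP

open Pool.Agent.H977R3 (Wk rf tm LS CT rf_le rf_gt tm_le tm_mid tm_gt rf_rf rf_tm_left rf_tm_right
  tm_tm tm_self)
open Pool.Agent.H725R2.SB (NC BT Light IsCut Cut)

theorem t7_vm_vm (w : Wk) : vm (vm w) = w := by
  funext i
  simp [vm]

theorem t7_vm_ct {N : ℕ} {w : Wk} {t : ℕ} (h : CT N w t) : CT N (vm w) t := h

theorem t7_vm_br {L : PL} {N : ℕ} {w : Wk} (h : BrA L.adj N w) : BrA L.adj N (vm w) := by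
  refine ⟨⟨?_, ?_, ?_, ?_⟩, h.pos, h.le⟩
  · show ((w 0).1, -(w 0).2) = (0, 0)
    rw [h.saw.zero]; simp
  · intro i hi
    exact L.vmir _ _ (h.saw.adj i hi)
  · intro i k hi hk heq
    apply h.saw.inj i k hi hk
    have h1 := congrArg Prod.fst heq
    have h2 := congrArg Prod.snd heq
    simp only [vm] at h1 h2
    ext
    · exact h1
    · omega
  · intro i hi
    simp only [vm]
    rw [h.saw.const i hi]

theorem t7_vm_cl {L : PL} {N ta td : ℕ} {w₀ w : Wk} (h : Cl L N ta td w₀ w) :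
    Cl L N ta td (vm w₀) (vm w) := by
  refine ⟨t7_vm_br h.br, h.cta, h.ctd, ?_, ?_⟩
  · intro i hi
    simp only [vm]
    rw [h.pre i hi]
  · intro i hi
    have h1 := h.suf i hi
    simp only [vm]
    rw [h1]

theorem t7_rf_vm (w : Wk) (j : ℕ) : rf (vm w) j = vm (rf w j) := by
  funext i
  rcases le_or_gt i j with h | h
  · rw [rf_le h]
    simp only [vm]
    rw [rf_le h]
  · rw [rf_gt h]
    simp only [vm]
    rw [rf_gt h]

theorem t7_vm_ls {N ta td : ℕ} {v : Wk} (h : LS N ta td v) : LS N ta td (vm v) := by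
  intro i k hik hk hor heq
  apply h i k hik hk hor
  have h1 := congrArg Prod.fst heq
  have h2 := congrArg Prod.snd heq
  simp only [vm] at h1 h2
  ext
  · exact h1
  · omega

theorem t7_isVA {L : PL} {N : ℕ} {l : ℤ} {ta td : ℕ} {w₀ w : Wk} {j : ℕ}
    (h : FM L N l ta td w₀ w j) (hup : L.up w j) :
    GFA L.up N l ta td w j ∧ GBA L.up N l ta td w j := by
  obtain ⟨cl, h1, h2, cj, w1, w2, ls⟩ := h
  refine ⟨⟨h1, h2, hup, fun i hi => cj.2.1 i hi, w1, ls⟩,
    ⟨h1, h2, hup, fun i hi => ?_, w2, ls⟩⟩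
  have := cj.2.2 i hi
  omega

theorem t7_vm_fm {L : PL} {N : ℕ} {l : ℤ} {ta td : ℕ} {w₀ w : Wk} {j : ℕ}
    (h : FM L N l ta td w₀ w j) : FM L N l ta td (vm w₀) (vm w) j := by
  obtain ⟨cl, h1, h2, cj, w1, w2, ls⟩ := h
  refine ⟨t7_vm_cl cl, h1, h2, cj, w1, w2, ?_⟩
  rw [t7_rf_vm]
  exact t7_vm_ls ls

theorem t7_inj {N : ℕ} {w w' : Wk} {j j' : ℕ} (hj : CT N w j) (hj' : CT N w' j')
    (h : rf w j = rf w' j') : w = w' ∧ j = j' := by
  have key : ∀ {w w' : Wk} {j j' : ℕ}, CT N w j → CT N w' j' → rf w j = rf w' j' → ¬ j < j' := by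
    intro w w' j j' hj hj' h hlt
    have e1 : rf w j j' = (2 * (w j).1 - (w j').1, (w j').2) := rf_gt hlt
    have e2 : rf w j j = w j := rf_le le_rfl
    have e3 : rf w' j' j' = w' j' := rf_le le_rfl
    have e4 : rf w' j' j = w' j := rf_le hlt.le
    have h1 := hj.2.2 j' hlt
    have h2 := hj'.2.1 j hlt.le
    rw [h] at e1 e2
    have f1 := congrArg Prod.fst (e1.symm.trans e3)
    have f2 := congrArg Prod.fst (e2.symm.trans e4)
    simp only at f1
    omega
  have hjj : j = j' := by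
    rcases lt_trichotomy j j' with h1 | h1 | h1
    · exact absurd h1 (key hj hj' h)
    · exact h1
    · exact absurd h1 (key hj' hj h.symm)
  subst hjj
  refine ⟨?_, rfl⟩
  rw [← rf_rf w j, h, rf_rf]

/-- the number of marks with the property `up` -/
theorem t7_half (L : PL) (h_VV : St_VV L) (h_WID : St_WID L) (N : ℕ) (l : ℤ) (ta td : ℕ) (w₀ : Wk)
    (hl1 : l ≤ (w₀ ta).1) (hl2 : l ≤ (w₀ N).1 - (w₀ td).1) (hle : ta ≤ td)
    (T : Finset (Wk × ℕ)) (hT : ∀ c ∈ T, FM L N l ta td w₀ c.1 c.2 ∧ L.up c.1 c.2)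
    (W : Finset Wk) (f : Wk → Wk) (hf : Function.Injective f)
    (hW : ∀ w, Cl L N ta td w₀ w → (w td).1 < (w ta).1 + 3 * l → f w ∈ W) :
    (T.card : ℝ) ≤ 4 * ((Nat.log 2 l.toNat : ℝ) + 2) ^ 2 *
      (1 + 3 * Real.log (((td - ta : ℕ) : ℝ) + 1)) * (W.card : ℝ) := by
  classical
  have h1 : T.card ≤ (VVA L N l ta td w₀).card := by
    apply Finset.card_le_card_of_injOn (fun c => rf c.1 c.2)
    · intro c hc
      obtain ⟨hfm, hup⟩ := hT c hc
      have hVA : IsVA L N l ta td w₀ (rf c.1 c.2) :=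
        ⟨c.1, c.2, hfm.cl, (t7_isVA hfm hup).1, (t7_isVA hfm hup).2, rfl⟩
      simp only [Finset.mem_coe]
      unfold VVA
      rw [Finset.mem_filter]
      refine ⟨Finset.mem_image.2 ⟨(c.1, c.2), ?_, rfl⟩, hVA⟩
      rw [Finset.mem_product]
      exact ⟨mem_ClF.2 hfm.cl, Finset.mem_range.2 hfm.cj.1⟩
    · intro c hc c' hc' h
      have := t7_inj (hT c hc).1.cj (hT c' hc').1.cj h
      exact Prod.ext this.1 this.2
  have h2 := h_VV N l ta td w₀ hl1 hl2 hle
  have h3 : (WWA L N l ta td w₀).card ≤ W.card := by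
    apply Finset.card_le_card_of_injOn f
    · intro w hw
      obtain ⟨h4, h5⟩ := h_WID N l ta td w₀ w hw
      exact hW w h4 h5
    · exact hf.injOn
  have hlog : 0 ≤ Real.log (((td - ta : ℕ) : ℝ) + 1) := Real.log_nonneg (by
    have : (0 : ℝ) ≤ ((td - ta : ℕ) : ℝ) := Nat.cast_nonneg _
    linarith)
  calc (T.card : ℝ) ≤ ((VVA L N l ta td w₀).card : ℝ) := by exact_mod_cast h1
    _ ≤ _ := h2
    _ ≤ _ := by
      apply mul_le_mul_of_nonneg_left _ (by positivity)
      exact_mod_cast h3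

theorem p_T7 (L : PL) (h_VV : St_VV L) (h_WID : St_WID L) : St_T7 L := by
  intro N l ta td w₀ S W hl hl1 hl2 hle hS hW
  classical
  have hlog : 0 ≤ Real.log (((td - ta : ℕ) : ℝ) + 1) := Real.log_nonneg (by
    have : (0 : ℝ) ≤ ((td - ta : ℕ) : ℝ) := Nat.cast_nonneg _
    linarith)
  have hlg : (0 : ℝ) ≤ (Nat.log 2 l.toNat : ℝ) := Nat.cast_nonneg _
  rcases Nat.eq_or_lt_of_le hle with heq | hlt
  · -- ta = td
    have h1 : S.card ≤ W.card := by
      apply Finset.card_le_card_of_injOn Prod.fst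
      · intro c hc
        apply hW c.1 (hS c hc).cl
        rw [← heq]; omega
      · intro c hc c' hc' h
        have a1 := (hS c hc).h1
        have a2 := (hS c hc).h2
        have b1 := (hS c' hc').h1
        have b2 := (hS c' hc').h2
        exact Prod.ext h (by omega)
    have h2 : (1 : ℝ) ≤ Yb l (td - ta) := by
      unfold Yb
      have h3 : (4 : ℝ) ≤ ((Nat.log 2 l.toNat : ℝ) + 2) ^ 2 := by nlinarith
      nlinarith
    calc (S.card : ℝ) ≤ (W.card : ℝ) := by exact_mod_cast h1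
      _ = 1 * (W.card : ℝ) := by ring
      _ ≤ _ := mul_le_mul_of_nonneg_right h2 (Nat.cast_nonneg _)
  · have hup : ∀ c ∈ S, L.up c.1 c.2 ∨ L.up (vm c.1) c.2 := by
      intro c hc
      have hfm := hS c hc
      have hbr := hfm.cl.br
      have h1 := hfm.h1
      have h2 := hfm.h2
      have hN := hfm.cj.1
      have hta : 1 ≤ ta := by
        by_contra hcon
        have h0 : ta = 0 := by omega
        have := hfm.cl.pre ta le_rfl
        rw [← this, h0, hbr.saw.zero] at hl1
        simp only at hl1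
        omega
      apply L.fold_up N c.1 c.2 hbr.saw hfm.cj (by omega)
      apply hfm.ls (c.2 - 1) (c.2 + 1) (by omega) (by omega)
      omega
    set S1 := S.filter (fun c => L.up c.1 c.2) with hS1
    set S2 := S.filter (fun c => ¬ L.up c.1 c.2) with hS2
    have hcard : S.card = S1.card + S2.card :=
      (Finset.card_filter_add_card_filter_not (s := S) (fun c => L.up c.1 c.2)).symm
    have b1 := t7_half L h_VV h_WID N l ta td w₀ hl1 hl2 hle S1 (fun c hc => by
      rw [hS1, Finset.mem_filter] at hc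
      exact ⟨hS c hc.1, hc.2⟩) W id Function.injective_id (fun w h1 h2 => hW w h1 h2)
    have hvinj : Function.Injective vm := fun w w' h => by
      rw [← t7_vm_vm w, h, t7_vm_vm]
    have b2 := t7_half L h_VV h_WID N l ta td (vm w₀) hl1 hl2 hle
      (S2.image (fun c => (vm c.1, c.2))) (fun c hc => by
        rw [Finset.mem_image] at hc
        obtain ⟨c', hc', rfl⟩ := hc
        rw [hS2, Finset.mem_filter] at hc'
        exact ⟨t7_vm_fm (hS c' hc'.1), (hup c' hc'.1).resolve_left hc'.2⟩) W vm hvinj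
      (fun w h1 h2 => by
        have h3 := t7_vm_cl h1
        rw [t7_vm_vm] at h3
        exact hW (vm w) h3 h2)
    have hcard2 : (S2.image (fun c => (vm c.1, c.2))).card = S2.card := by
      apply Finset.card_image_of_injective
      intro c c' h
      simp only [Prod.mk.injEq] at h
      exact Prod.ext (hvinj h.1) h.2
    rw [hcard2] at b2
    rw [hcard]
    push_cast
    unfold Yb
    linarith

end Pool.Agent.H979R2.NP
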