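import Pool.Agent.H979R2.NP.Stubs
import Pool.Agent.H725R2.SB.TF2

/-! Task UNF (helper153): unfolding a backtrack of a closed window. -/

set_option autoImplicit false

namespace Pool.Agent.H979R2.NP

open Pool.Agent.H977R3 (Wk rf tm LS CT rf_le rf_gt tm_le tm_mid tm_gt rf_rf rf_tm_left rf_tm_right
  tm_tm tm_self)
open Pool.Agent.H725R2.SB (NC BT Light IsCut Cut TF2Unf tF2_ge tF2_cut_back tF2_light)

theorem unf_hit {a a' : ℕ → ℤ} {t : ℕ} (h : ∀ i, i ≤ t → a' i = a i) {x : ℤ} (hx : x ≤ a t) :
    hit a' x = hit a x := by
  have h1 : t ∈ {i | x ≤ a i} := hx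
  have h2 : t ∈ {i | x ≤ a' i} := by
    show x ≤ a' t
    rw [h t le_rfl]; exact hx
  have m1 : x ≤ a (hit a x) := Nat.sInf_mem ⟨t, h1⟩
  have m2 : x ≤ a' (hit a' x) := Nat.sInf_mem ⟨t, h2⟩
  have l1 : hit a x ≤ t := Nat.sInf_le h1
  have l2 : hit a' x ≤ t := Nat.sInf_le h2
  apply le_antisymm
  · apply Nat.sInf_le
    show x ≤ a' (hit a x)
    rw [h _ l1]; exact m1
  · apply Nat.sInf_le
    show x ≤ a (hit a' x)
    rw [← h _ l2]; exact m2

theorem p_UNF (L : PL) : St_UNF L := by
  intro N r w τ i I ξ p t t' hr hrw hi hI hξ hp1 hp2 hb hsz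
  classical
  unfold XI at hξ
  rw [Finset.mem_filter, mem_BrF] at hξ
  obtain ⟨hbr, hcl⟩ := hξ
  obtain ⟨-, hnc, hhit, htop⟩ := hcl i (Finset.mem_insert_self _ _)
  obtain ⟨a, ha⟩ : ∃ a, a = lv ξ := ⟨_, rfl⟩
  rw [← ha] at hnc hhit htop hb hsz
  have hai : ∀ k, a k = (ξ k).1 := fun k => by rw [ha]; rfl
  have hwr : (400 : ℤ) * r ≤ w := by exact_mod_cast hrw
  have hr1 : (1 : ℤ) ≤ r := by exact_mod_cast hr
  have e4 : 4 * (w : ℤ) * (i + 1) = 4 * (w : ℤ) * i + 4 * w := by ring
  have e5 : 4 * (w : ℤ) * (i + 2) = 4 * (w : ℤ) * i + 8 * w := by ring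
  rw [e5] at htop
  have hle := hb.le
  have hleN := hb.leN
  have hbp1 := hb.p1
  have hbp2 := hb.p2
  have ht'N : t' < N := by
    rcases lt_or_eq_of_le hleN with h | h
    · exact h
    · exfalso
      rw [h] at hbp1
      omega
  -- bounds for all times
  have hconst : ∀ k, N ≤ k → a k = a N := fun k hk => by rw [hai, hai, hbr.saw.const k hk]
  have hlo' : ∀ k, t' < k → a t' < a k := by
    intro k hk
    rcases le_total k N with h | h
    · exact hb.lo' k hk h
    · rw [hconst k h]; exact hb.lo' N ht'N le_rfl
  have htt : t < t' := by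
    rcases lt_or_eq_of_le hle with h | h
    · exact h
    · exfalso
      have hpe : p = a t := by rw [← h] at hbp1; omega
      refine hnc.1 p (by omega) (by rw [e4]; omega) ⟨t, by omega, fun k hk => ?_, fun k hk hkN => ?_⟩
      · rw [hpe]; exact hb.up k (by omega)
      · rw [hpe, h]; exact hb.lo' k (by omega) hkN
  have hδ := hb.up' t' htt le_rfl
  -- the new walk
  obtain ⟨v, hv⟩ : ∃ v, v = tm ξ t t' := ⟨_, rfl⟩
  rw [← hv]
  have vle : ∀ k, k ≤ t → v k = ξ k := fun k hk => by rw [hv, tm_le hk]
  have vmid : ∀ k, t < k → k ≤ t' → v k = (2 * a t - a k, (ξ k).2) :=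
    fun k h1 h2 => by rw [hv, tm_mid h1 h2, hai, hai]
  have vgt : ∀ k, t' < k → v k = (a k + 2 * (a t - a t'), (ξ k).2) :=
    fun k h1 => by
      rw [hv, tm_gt (by omega) h1, hai, hai, hai]
      ext
      · simp only; ring
      · rfl
  have lle : ∀ k, k ≤ t → (v k).1 = a k := fun k hk => by rw [vle k hk, hai]
  have lmid : ∀ k, t < k → k ≤ t' → (v k).1 = 2 * a t - a k := fun k h1 h2 => by rw [vmid k h1 h2]
  have lgt : ∀ k, t' < k → (v k).1 = a k + 2 * (a t - a t') := fun k h1 => by rw [vgt k h1]
  have bmid : ∀ k, t < k → k ≤ t' → a k < a t ∧ a t' ≤ a k :=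
    fun k h1 h2 => ⟨hb.up' k h1 h2, hb.lo k h1.le (by omega)⟩
  have hu : TF2Unf a (lv v) t t' := by
    refine ⟨fun k hk => lle k hk, fun k h1 h2 => ?_, fun k h1 => ?_⟩
    · rcases Nat.eq_or_lt_of_le h1 with h | h
      · subst h
        show (v t).1 = _
        rw [lle t le_rfl]; ring
      · exact lmid k h h2
    · rcases Nat.eq_or_lt_of_le h1 with h | h
      · subst h
        show (v t').1 = _
        rw [lmid t' htt le_rfl]; ring
      · exact lgt k h
  have hge : ∀ k, a k ≤ (v k).1 := fun k => tF2_ge hb hu k
  have hvN : (v N).1 = a N + 2 * (a t - a t') := lgt N ht'N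
  have haN : ∀ k, k ≤ N → a k ≤ a N := fun k hk => by rw [hai, hai]; exact hbr.le k hk
  have hbrv : BrA L.adj N v := by
    refine ⟨⟨?_, ?_, ?_, ?_⟩, ?_, ?_⟩
    · rw [vle 0 (by omega)]; exact hbr.saw.zero
    · intro k hk
      have hadj := hbr.saw.adj k hk
      rcases lt_or_ge k t with h1 | h1
      · rw [vle k (by omega), vle (k + 1) (by omega)]; exact hadj
      · rcases lt_or_ge k t' with h2 | h2
        · have hm := L.mir _ _ (2 * a t) hadj
          have e1 : v k = (2 * a t - (ξ k).1, (ξ k).2) := by
            rcases Nat.eq_or_lt_of_le h1 with h | h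
            · subst h
              rw [vle t le_rfl, hai]
              ext
              · simp only; ring
              · rfl
            · rw [vmid k h (by omega), hai k]
          have e2 : v (k + 1) = (2 * a t - (ξ (k + 1)).1, (ξ (k + 1)).2) := by
            rw [vmid (k + 1) (by omega) (by omega), hai (k + 1)]
          rw [e1, e2]; exact hm
        · have hm := L.tra _ _ (2 * (a t - a t')) hadj
          have e1 : v k = ((ξ k).1 + 2 * (a t - a t'), (ξ k).2) := by
            rcases Nat.eq_or_lt_of_le h2 with h | h
            · subst h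
              rw [vmid t' htt le_rfl, ← hai t']
              ext
              · simp only; ring
              · rfl
            · rw [vgt k h, hai k]
          have e2 : v (k + 1) = ((ξ (k + 1)).1 + 2 * (a t - a t'), (ξ (k + 1)).2) := by
            rw [vgt (k + 1) (by omega), hai (k + 1)]
          rw [e1, e2]; exact hm
    · have main : ∀ j k, j < k → k ≤ N → v j ≠ v k := by
        intro j k hjk hk heq
        have heq1 := congrArg Prod.fst heq
        have heq2 := congrArg Prod.snd heq
        have hfin : ξ j = ξ k → False := fun h => by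
          have := hbr.saw.inj j k (by omega) hk h; omega
        rcases le_or_gt k t with hk1 | hk1
        · rw [vle j (by omega), vle k hk1] at heq
          exact hfin heq
        · rcases le_or_gt k t' with hk2 | hk2
          · rcases le_or_gt j t with hj1 | hj1
            · rw [lle j hj1, lmid k hk1 hk2] at heq1
              have h1 := hb.up j (by omega)
              have h2 := (bmid k hk1 hk2).1
              omega
            · rw [vmid j hj1 (by omega), vmid k hk1 hk2] at heq
              have h1 := congrArg Prod.fst heq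
              have h2 := congrArg Prod.snd heq
              simp only at h1 h2
              apply hfin
              ext
              · rw [← hai, ← hai]; omega
              · exact h2
          · have h3 := hlo' k hk2
            rw [lgt k hk2] at heq1
            rcases le_or_gt j t with hj1 | hj1
            · rw [lle j hj1] at heq1
              have h1 := hb.up j (by omega)
              omega
            · rcases le_or_gt j t' with hj2 | hj2
              · rw [lmid j hj1 hj2] at heq1
                have h2 := (bmid j hj1 hj2).2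
                omega
              · rw [vgt j hj2, vgt k hk2] at heq
                have h1 := congrArg Prod.fst heq
                have h2 := congrArg Prod.snd heq
                simp only at h1 h2
                apply hfin
                ext
                · rw [← hai, ← hai]; omega
                · exact h2
      intro j k hj hk heq
      rcases lt_trichotomy j k with h | h | h
      · exact absurd heq (main j k h hk)
      · exact h
      · exact absurd heq.symm (main k j h hj)
    · intro k hk
      rw [vgt k (by omega), vgt N ht'N, hconst k hk, hbr.saw.const k hk]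
    · intro k h1 h2
      have h3 := hbr.pos k h1 h2
      have h4 := hge k
      rw [hai] at h4
      omega
    · intro k hk
      rw [hvN]
      have h1 := haN k hk
      have h2 := haN t (by omega)
      rcases le_or_gt k t with hk1 | hk1
      · rw [lle k hk1]; omega
      · rcases le_or_gt k t' with hk2 | hk2
        · rw [lmid k hk1 hk2]
          have := (bmid k hk1 hk2).2
          omega
        · rw [lgt k hk2]; omega
  have hct : CT N v t := by
    refine ⟨by omega, fun k hk => ?_, fun k hk => ?_⟩
    · rw [lle k hk, lle t le_rfl]; exact hb.up k (by omega)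
    · rw [lle t le_rfl]
      rcases le_or_gt k t' with hk2 | hk2
      · rw [lmid k hk hk2]
        have := (bmid k hk hk2).1
        omega
      · rw [lgt k hk2]
        have := hlo' k hk2
        omega
  have hct' : CT N v t' := by
    refine ⟨ht'N, fun k hk => ?_, fun k hk => ?_⟩
    · rw [lmid t' htt le_rfl]
      rcases le_or_gt k t with hk1 | hk1
      · rw [lle k hk1]
        have := hb.up k (by omega)
        omega
      · rw [lmid k hk1 hk]
        have := (bmid k hk1 hk).2
        omega
    · rw [lmid t' htt le_rfl, lgt k hk]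
      have := hlo' k hk
      omega
  have hat : (v t).1 = a t := lle t le_rfl
  have hat' : (v t').1 = 2 * a t - a t' := lmid t' htt le_rfl
  constructor
  · -- membership
    unfold XI
    rw [Finset.mem_filter, mem_BrF]
    refine ⟨hbrv, fun j hj => ?_⟩
    obtain ⟨hj1, hncj, hhitj, htopj⟩ := hcl j (Finset.mem_insert_of_mem hj)
    rw [← ha] at hncj hhitj htopj
    have hj' : (j : ℤ) + 1 ≤ i := by exact_mod_cast hI j hj
    have hmj : 4 * (w : ℤ) * (j + 1) ≤ 4 * (w : ℤ) * i := by nlinarith
    have hmj0 : 4 * (w : ℤ) * j ≤ 4 * (w : ℤ) * i := by nlinarith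
    have hst : 4 * (w : ℤ) * i < a t' := by omega
    refine ⟨hj1, ⟨fun q hq1 hq2 ⟨u, hcu⟩ => ?_, ?_⟩, ?_, ?_⟩
    · exact hncj.1 q hq1 hq2 ⟨u, tF2_cut_back hb hu (by omega) hcu⟩
    · refine hncj.2.trans (Finset.card_le_card ?_)
      intro p' hp'
      rw [Finset.mem_filter] at hp' ⊢
      refine ⟨hp'.1, tF2_light hb hu ?_ hp'.2⟩
      have := (Finset.mem_Ioc.mp hp'.1).2
      have h4 : 4 * (w : ℤ) * j + 3 * w ≤ 4 * (w : ℤ) * (j + 1) := by nlinarith
      omega
    · rw [unf_hit (fun k hk => hu.e1 k hk) (by omega), unf_hit (fun k hk => hu.e1 k hk) (by omega)]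
      exact hhitj
    · have := hge N
      show _ ≤ (v N).1
      omega
  · refine ⟨hbrv, htt, hct, hct', ?_, ?_, ?_, ?_, ?_, ?_, ?_⟩
    · rw [hat, hat']; omega
    · intro j k hjk hk
      rw [hv, tm_tm hle]
      intro h
      have := hbr.saw.inj j k (by omega) hk h
      omega
    · intro u hcu hα hβ
      obtain ⟨huN, hu1, hu2⟩ := hcu
      rw [hat, hat']
      rw [e4] at hβ
      constructor
      · by_contra hcon
        push Not at hcon
        have hc : Cut (lv v) N (v u).1 u := ⟨huN, fun k hk => hu1 k hk, fun k hk _ => by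
          have := hu2 k hk
          show (v u).1 < (v k).1
          omega⟩
        have := tF2_cut_back hb hu (by omega) hc
        exact hnc.1 _ hα (by rw [e4]; exact hβ) ⟨u, this⟩
      · by_contra hcon
        push Not at hcon
        have hut' : t' < u := by
          by_contra h
          push Not at h
          rcases le_or_gt u t with h1 | h1
          · rw [lle u h1] at hcon
            have := hb.up u h
            omega
          · rw [lmid u h1 h] at hcon
            have := (bmid u h1 h).2
            omega
        have hlu := lgt u hut'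
        have hc : Cut a N (a u) u := by
          refine ⟨huN, fun k hk => ?_, fun k hk _ => ?_⟩
          · rcases le_or_gt k t' with h1 | h1
            · have := hb.up k h1
              omega
            · have := hu1 k hk
              rw [lgt k h1] at this
              omega
          · have := hu2 k hk
            rw [lgt k (by omega)] at this
            omega
        exact hnc.1 _ (by omega) (by rw [e4]; omega) ⟨u, hc⟩
    · rw [hat]; omega
    · rw [hat', e4]; omega
    · intro u u' hcu hcu' hα hβ
      obtain ⟨huN, hu1, hu2⟩ := hcu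
      obtain ⟨huN', hu1', hu2'⟩ := hcu'
      have h1 : hit a (4 * (w : ℤ) * i) ≤ u := by
        rcases le_or_gt u t with h | h
        · rw [lle u h] at hα
          exact Nat.sInf_le hα
        · have : hit a (4 * (w : ℤ) * i) ≤ t := Nat.sInf_le (show 4 * (w : ℤ) * i ≤ a t by omega)
          omega
      have h2 : u' < hit a (4 * (w : ℤ) * (i + 1)) := by
        by_contra hcon
        push Not at hcon
        have hmem : 4 * (w : ℤ) * (i + 1) ≤ a (hit a (4 * (w : ℤ) * (i + 1))) :=
          Nat.sInf_mem (s := {k | 4 * (w : ℤ) * (i + 1) ≤ a k})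
            ⟨N, show 4 * (w : ℤ) * (i + 1) ≤ a N by rw [e4]; omega⟩
        have h3 := hu1' _ hcon
        have h4 := hge (hit a (4 * (w : ℤ) * (i + 1)))
        omega
      omega
    · rw [hvN, e4]; omega

end Pool.Agent.H979R2.NP
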