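import Pool.Agent.H979R2.NP.Stubs

/-!
# Union over sets of windows
-/

set_option autoImplicit false

namespace Pool.Agent.H979R2.NP

open Pool.Agent.H977R3 (Wk rf tm LS CT rf_le rf_gt tm_le tm_mid tm_gt rf_rf rf_tm_left rf_tm_right
  tm_tm tm_self)

theorem uni_D0_nonneg (r τ : ℕ) : 0 ≤ D0 r τ := by
  unfold D0
  positivity

theorem uni_step (L : PL) (h_ONE : St_ONE L) (N r w τ : ℕ) (hr : 1 ≤ r) (hw : 400 * r ≤ w)
    (I : Finset ℕ) :
    ((XI L N r w τ I).card : ℝ) * (w : ℝ) ^ I.card ≤
      (D0 r τ) ^ I.card * ((BrF L N).card : ℝ) := by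
  classical
  induction I using Finset.induction_on_max with
  | empty =>
    simp only [Finset.card_empty, pow_zero, mul_one, one_mul]
    exact_mod_cast Finset.card_filter_le _ _
  | insert i I hmax ih =>
    have hni : i ∉ I := fun h => lt_irrefl _ (hmax i h)
    rw [Finset.card_insert_of_notMem hni]
    rcases Nat.eq_zero_or_pos i with h0 | h0
    · have hemp : XI L N r w τ (insert i I) = ∅ := by
        unfold XI
        rw [Finset.filter_eq_empty_iff]
        intro u _ h
        have := (h i (Finset.mem_insert_self _ _)).1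
        omega
      rw [hemp]
      simp only [Finset.card_empty, Nat.cast_zero, zero_mul]
      have := uni_D0_nonneg r τ
      positivity
    · have h1 := h_ONE N r w τ i I hr hw h0 hmax
      have hD := uni_D0_nonneg r τ
      calc ((XI L N r w τ (insert i I)).card : ℝ) * (w : ℝ) ^ (I.card + 1)
          = (((XI L N r w τ (insert i I)).card : ℝ) * w) * (w : ℝ) ^ I.card := by ring
        _ ≤ (D0 r τ * ((XI L N r w τ I).card : ℝ)) * (w : ℝ) ^ I.card :=
            mul_le_mul_of_nonneg_right h1 (by positivity)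
        _ = D0 r τ * (((XI L N r w τ I).card : ℝ) * (w : ℝ) ^ I.card) := by ring
        _ ≤ D0 r τ * ((D0 r τ) ^ I.card * ((BrF L N).card : ℝ)) :=
            mul_le_mul_of_nonneg_left ih hD
        _ = (D0 r τ) ^ (I.card + 1) * ((BrF L N).card : ℝ) := by ring

theorem p_UNI (L : PL) (h_ONE : St_ONE L) : St_UNI L := by
  classical
  intro N r w τ m k hr hw
  have hD := uni_D0_nonneg r τ
  have hsub : (BrF L N).filter (fun u => ∃ J ⊆ Finset.range m, k ≤ J.card ∧
      ∀ j ∈ J, NCd (lv u) N r w τ j) ⊆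
      (Finset.powersetCard k (Finset.range m)).biUnion (fun I => XI L N r w τ I) := by
    intro u hu
    rw [Finset.mem_filter] at hu
    obtain ⟨hu1, J, hJ1, hJ2, hJ3⟩ := hu
    obtain ⟨I, hI1, hI2⟩ := Finset.exists_subset_card_eq hJ2
    rw [Finset.mem_biUnion]
    refine ⟨I, ?_, ?_⟩
    · rw [Finset.mem_powersetCard]
      exact ⟨hI1.trans hJ1, hI2⟩
    · unfold XI
      rw [Finset.mem_filter]
      exact ⟨hu1, fun j hj => hJ3 j (hI1 hj)⟩
  have hcard : (((BrF L N).filter (fun u => ∃ J ⊆ Finset.range m, k ≤ J.card ∧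
      ∀ j ∈ J, NCd (lv u) N r w τ j)).card : ℝ) ≤
      ∑ I ∈ Finset.powersetCard k (Finset.range m), ((XI L N r w τ I).card : ℝ) := by
    have h1 := (Finset.card_le_card hsub).trans Finset.card_biUnion_le
    exact_mod_cast h1
  have h2 : (∑ I ∈ Finset.powersetCard k (Finset.range m), ((XI L N r w τ I).card : ℝ)) *
      (w : ℝ) ^ k ≤ ∑ _I ∈ Finset.powersetCard k (Finset.range m),
        (D0 r τ) ^ k * ((BrF L N).card : ℝ) := by
    rw [Finset.sum_mul]
    refine Finset.sum_le_sum (fun I hI => ?_)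
    rw [Finset.mem_powersetCard] at hI
    have := uni_step L h_ONE N r w τ hr hw I
    rw [hI.2] at this
    exact this
  rw [Finset.sum_const, Finset.card_powersetCard, Finset.card_range, nsmul_eq_mul] at h2
  have h3 : ((m.choose k : ℕ) : ℝ) ≤ 2 ^ m := by exact_mod_cast Nat.choose_le_two_pow m k
  calc _ ≤ (∑ I ∈ Finset.powersetCard k (Finset.range m), ((XI L N r w τ I).card : ℝ)) *
      (w : ℝ) ^ k := mul_le_mul_of_nonneg_right hcard (by positivity)
    _ ≤ ((m.choose k : ℕ) : ℝ) * ((D0 r τ) ^ k * ((BrF L N).card : ℝ)) := h2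
    _ ≤ 2 ^ m * ((D0 r τ) ^ k * ((BrF L N).card : ℝ)) :=
        mul_le_mul_of_nonneg_right h3 (by positivity)
    _ = 2 ^ m * (D0 r τ) ^ k * ((BrF L N).card : ℝ) := by ring

end Pool.Agent.H979R2.NP
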