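import Pool.Agent.H979R2.NP.Stubs
import Pool.Agent.H977R3.Ineq
import Pool.Agent.H977R3.Ferr

/-!
VV: the number of folded objects in one class.
-/

set_option autoImplicit false

namespace Pool.Agent.H979R2.NP

open Pool.Agent.H977R3 (Wk rf tm LS CT rf_le rf_gt tm_le tm_mid tm_gt rf_rf rf_tm_left rf_tm_right
  tm_tm tm_self abs_ineq Y_le)

/-- `Y_le` for a shifted relation -/
theorem vv_Y_le {C : Type*} [Fintype C] [DecidableEq C] (R : Finset (ℕ × ℕ)) (col : ℕ × ℕ → C)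
    (α β : ℕ → ℝ) (a n : ℕ) (D : ℝ) (hnD : 1 ≤ (n : ℝ) * D)
    (ha : ∀ p ∈ R, a ≤ p.1 ∧ a ≤ p.2 ∧ p.1 < a + n)
    (hα : ∀ p ∈ R, 0 < α p.1 ∧ α p.1 ≤ 1 ∧ 1 ≤ D * α p.1) (hβ : ∀ p ∈ R, 0 < β p.2)
    (hnest : ∀ p ∈ R, ∀ q ∈ R, col p = col q →
      (∀ s, (p.1, s) ∈ R → col (p.1, s) = col p → (q.1, s) ∈ R ∧ col (q.1, s) = col p) ∨
      (∀ s, (q.1, s) ∈ R → col (q.1, s) = col p → (p.1, s) ∈ R ∧ col (p.1, s) = col p)) :
    ∑ p ∈ R, α p.1 * β p.2 / ((∑ q ∈ R.filter (fun q => q.1 = p.1), β q.2) *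
      (∑ q ∈ R.filter (fun q => q.2 = p.2), α q.1)) ≤
      Fintype.card C * (1 + Real.log (n * D)) := by
  classical
  set R' := R.image (fun p => (p.1 - a, p.2 - a)) with hR'
  have hmem : ∀ p : ℕ × ℕ, p ∈ R' ↔ (p.1 + a, p.2 + a) ∈ R := by
    intro p
    rw [hR', Finset.mem_image]
    constructor
    · rintro ⟨q, hq, rfl⟩
      obtain ⟨h1, h2, -⟩ := ha q hq
      simp only [Nat.sub_add_cancel h1, Nat.sub_add_cancel h2]
      exact hq
    · intro h
      exact ⟨_, h, by simp⟩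
  have hmem2 : ∀ p : ℕ × ℕ, p ∈ R → (p.1 - a, p.2 - a) ∈ R' := by
    intro p hp
    rw [hR']
    exact Finset.mem_image_of_mem _ hp
  have hback : ∀ p : ℕ × ℕ, p ∈ R → (p.1 - a + a, p.2 - a + a) = p := by
    intro p hp
    obtain ⟨h1, h2, -⟩ := ha p hp
    simp only [Nat.sub_add_cancel h1, Nat.sub_add_cancel h2]
  have hY := Y_le R' (fun p => col (p.1 + a, p.2 + a)) (fun s => α (s + a)) (fun s => β (s + a)) n
    D hnD
    (fun p hp => by
      rw [hmem] at hp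
      obtain ⟨-, -, h3⟩ := ha _ hp
      simp only at h3
      omega)
    (fun p hp => by
      rw [hmem] at hp
      exact hα _ hp)
    (fun p hp => by
      rw [hmem] at hp
      exact hβ _ hp)
    (fun p hp q hq hc => by
      rw [hmem] at hp hq
      rcases hnest _ hp _ hq hc with h | h
      · left
        intro s hs hcs
        rw [hmem] at hs
        obtain ⟨h1, h2⟩ := h _ hs hcs
        exact ⟨(hmem _).2 h1, h2⟩
      · right
        intro s hs hcs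
        rw [hmem] at hs
        obtain ⟨h1, h2⟩ := h _ hs hcs
        exact ⟨(hmem _).2 h1, h2⟩)
  refine le_trans (le_of_eq ?_) hY
  symm
  refine Finset.sum_nbij' (fun p => (p.1 + a, p.2 + a)) (fun p => (p.1 - a, p.2 - a)) ?_ ?_ ?_ ?_ ?_
  · intro p hp
    exact (hmem p).1 hp
  · intro p hp
    exact hmem2 p hp
  · intro p _
    simp
  · intro p hp
    exact hback p hp
  · intro p hp
    have e1 : ∑ q ∈ R'.filter (fun q => q.1 = p.1), β (q.2 + a) =
        ∑ q ∈ R.filter (fun q => q.1 = p.1 + a), β q.2 := by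
      refine Finset.sum_nbij' (fun p => (p.1 + a, p.2 + a)) (fun p => (p.1 - a, p.2 - a)) ?_ ?_ ?_
        ?_ ?_
      · intro q hq
        rw [Finset.mem_filter] at hq ⊢
        exact ⟨(hmem q).1 hq.1, by simp only [hq.2]⟩
      · intro q hq
        rw [Finset.mem_filter] at hq ⊢
        exact ⟨hmem2 q hq.1, by simp only [hq.2, Nat.add_sub_cancel]⟩
      · intro q _
        simp
      · intro q hq
        exact hback q (Finset.mem_filter.1 hq).1
      · intro q _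
        rfl
    have e2 : ∑ q ∈ R'.filter (fun q => q.2 = p.2), α (q.1 + a) =
        ∑ q ∈ R.filter (fun q => q.2 = p.2 + a), α q.1 := by
      refine Finset.sum_nbij' (fun p => (p.1 + a, p.2 + a)) (fun p => (p.1 - a, p.2 - a)) ?_ ?_ ?_
        ?_ ?_
      · intro q hq
        rw [Finset.mem_filter] at hq ⊢
        exact ⟨(hmem q).1 hq.1, by simp only [hq.2]⟩
      · intro q hq
        rw [Finset.mem_filter] at hq ⊢
        exact ⟨hmem2 q hq.1, by simp only [hq.2, Nat.add_sub_cancel]⟩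
      · intro q _
        simp
      · intro q hq
        exact hback q (Finset.mem_filter.1 hq).1
      · intro q _
        rfl
    simp only
    rw [e1, e2]

theorem vv_lt {L : PL} {N : ℕ} {l : ℤ} {ta td : ℕ} {w₀ w : Wk} {t t' : ℕ}
    (h : QPA L N l ta td w₀ w t t') : t < N ∧ t' < N := by
  have h1 : td < N := h.1.ctd.1
  exact ⟨lt_of_le_of_lt h.2.1.gf.h2 h1, lt_of_le_of_lt h.2.1.gb.h2 h1⟩

theorem vv_mem_QQ {L : PL} {N : ℕ} {l : ℤ} {ta td : ℕ} {w₀ : Wk} {c : Wk × ℕ × ℕ} :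
    c ∈ QQA L N l ta td w₀ ↔ QPA L N l ta td w₀ c.1 c.2.1 c.2.2 := by
  classical
  unfold QQA
  simp only [Finset.mem_filter, Finset.mem_product, Finset.mem_range, mem_ClF]
  exact ⟨fun h => h.2, fun h => ⟨⟨h.1, vv_lt h⟩, h⟩⟩

theorem vv_mem_RR {L : PL} {N : ℕ} {l : ℤ} {ta td : ℕ} {w₀ w : Wk} {p : ℕ × ℕ} :
    p ∈ RRA L N l ta td w₀ w ↔ QPA L N l ta td w₀ w p.1 p.2 := by
  classical
  unfold RRA
  simp only [Finset.mem_filter, Finset.mem_product, Finset.mem_range]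
  exact ⟨fun h => h.2, fun h => ⟨vv_lt h, h⟩⟩

theorem vv_mem_WW {L : PL} {N : ℕ} {l : ℤ} {ta td : ℕ} {w₀ w : Wk} :
    w ∈ WWA L N l ta td w₀ ↔ ∃ t t', QPA L N l ta td w₀ w t t' := by
  classical
  unfold WWA
  simp only [Finset.mem_filter, mem_ClF]
  exact ⟨fun h => h.2, fun h => ⟨by obtain ⟨t, t', h⟩ := h; exact h.1, h⟩⟩

theorem vv_mem_VV {L : PL} {N : ℕ} {l : ℤ} {ta td : ℕ} {w₀ v : Wk} :
    v ∈ VVA L N l ta td w₀ ↔ IsVA L N l ta td w₀ v := by
  classical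
  unfold VVA
  simp only [Finset.mem_filter, Finset.mem_image, Finset.mem_product, Finset.mem_range, mem_ClF]
  refine ⟨fun h => h.2, fun h => ⟨?_, h⟩⟩
  obtain ⟨w, j, hc, hf, hb, rfl⟩ := h
  exact ⟨(w, j), ⟨hc, lt_of_le_of_lt hf.h2 hc.ctd.1⟩, rfl⟩

/-- the sum over `QQA` as a double sum -/
theorem vv_sum_QQ {L : PL} {N : ℕ} {l : ℤ} {ta td : ℕ} {w₀ : Wk} (f : Wk × ℕ × ℕ → ℝ) :
    ∑ c ∈ QQA L N l ta td w₀, f c =
      ∑ w ∈ WWA L N l ta td w₀, ∑ p ∈ RRA L N l ta td w₀ w, f (w, p) := by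
  classical
  rw [Finset.sum_sigma']
  refine Finset.sum_nbij' (fun c => ⟨c.1, c.2⟩) (fun c => (c.1, c.2)) ?_ ?_ ?_ ?_ ?_
  · intro c hc
    rw [vv_mem_QQ] at hc
    simp only [Finset.mem_sigma, vv_mem_WW, vv_mem_RR]
    exact ⟨⟨_, _, hc⟩, hc⟩
  · intro c hc
    simp only [Finset.mem_sigma, vv_mem_WW, vv_mem_RR] at hc
    rw [vv_mem_QQ]
    exact hc.2
  · intro c _; rfl
  · intro c _; rfl
  · intro c _; rfl

theorem vv_sum_left [DecidableEq Wk] {L : PL} {N : ℕ} {l : ℤ} {ta td : ℕ} {w₀ : Wk}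
    (f : Wk × ℕ × ℕ → ℝ) (w : Wk) (t : ℕ) :
    ∑ c ∈ (QQA L N l ta td w₀).filter (fun c => c.1 = w ∧ c.2.1 = t), f c =
      ∑ q ∈ (RRA L N l ta td w₀ w).filter (fun q => q.1 = t), f (w, q) := by
  classical
  refine Finset.sum_nbij' (fun c => c.2) (fun q => (w, q)) ?_ ?_ ?_ ?_ ?_
  · intro c hc
    rw [Finset.mem_filter, vv_mem_QQ] at hc
    obtain ⟨h1, h2, h3⟩ := hc
    rw [Finset.mem_filter, vv_mem_RR]
    rw [h2] at h1
    exact ⟨h1, h3⟩
  · intro q hq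
    rw [Finset.mem_filter, vv_mem_RR] at hq
    rw [Finset.mem_filter, vv_mem_QQ]
    exact ⟨hq.1, rfl, hq.2⟩
  · intro c hc
    rw [Finset.mem_filter] at hc
    exact Prod.ext hc.2.1.symm rfl
  · intro q _; rfl
  · intro c hc
    rw [Finset.mem_filter] at hc
    obtain ⟨c1, c2⟩ := c
    simp only at hc ⊢
    rw [hc.2.1]

theorem vv_sum_right [DecidableEq Wk] {L : PL} {N : ℕ} {l : ℤ} {ta td : ℕ} {w₀ : Wk}
    (f : Wk × ℕ × ℕ → ℝ) (w : Wk) (t : ℕ) :
    ∑ c ∈ (QQA L N l ta td w₀).filter (fun c => c.1 = w ∧ c.2.2 = t), f c =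
      ∑ q ∈ (RRA L N l ta td w₀ w).filter (fun q => q.2 = t), f (w, q) := by
  classical
  refine Finset.sum_nbij' (fun c => c.2) (fun q => (w, q)) ?_ ?_ ?_ ?_ ?_
  · intro c hc
    rw [Finset.mem_filter, vv_mem_QQ] at hc
    obtain ⟨h1, h2, h3⟩ := hc
    rw [Finset.mem_filter, vv_mem_RR]
    rw [h2] at h1
    exact ⟨h1, h3⟩
  · intro q hq
    rw [Finset.mem_filter, vv_mem_RR] at hq
    rw [Finset.mem_filter, vv_mem_QQ]
    exact ⟨hq.1, rfl, hq.2⟩
  · intro c hc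
    rw [Finset.mem_filter] at hc
    exact Prod.ext hc.2.1.symm rfl
  · intro q _; rfl
  · intro c hc
    rw [Finset.mem_filter] at hc
    obtain ⟨c1, c2⟩ := c
    simp only at hc ⊢
    rw [hc.2.1]

theorem vv_tm {L : PL} (h_TM : St_TM L) {N : ℕ} {l : ℤ} {ta td : ℕ} {w₀ : Wk}
    (hlA : l ≤ (w₀ ta).1) (hlB : l ≤ (w₀ N).1 - (w₀ td).1) {w : Wk} {t t' : ℕ}
    (h : QPA L N l ta td w₀ w t t') : QPA L N l ta td w₀ (tm w t t') t t' := by
  obtain ⟨hc, hp, h1, h2⟩ := h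
  obtain ⟨hc', hp'⟩ := h_TM N l ta td t t' w₀ w hlA hlB hc hp
  refine ⟨hc', hp', ?_, ?_⟩
  · rw [rf_tm_left hp.le]; exact h2
  · rw [rf_tm_right hp.le]; exact h1

/-- the diagonal pair of a folded object -/
theorem vv_diag {L : PL} {N : ℕ} {l : ℤ} {ta td : ℕ} {w₀ w : Wk} {j : ℕ}
    (hc : Cl L N ta td w₀ w) (hf : GFA L.up N l ta td w j) (hb : GBA L.up N l ta td w j) :
    QPA L N l ta td w₀ w j j := by
  have hV : IsVA L N l ta td w₀ (rf w j) := ⟨w, j, hc, hf, hb, rfl⟩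
  refine ⟨hc, ⟨hf, hb, le_rfl, fun i h1 h2 => absurd h1 (by omega), ?_⟩, hV, hV⟩
  intro i h1 h2
  have hij : i = j := le_antisymm h2 h1
  subst hij
  have : (w i).1 ≤ (w td).1 := hc.ctd.2.1 i hf.h2
  linarith

theorem p_VV (L : PL) (h_TM : St_TM L) (h_COV : St_COV L) : St_VV L := by
  classical
  intro N l ta td w₀ hlA hlB hle
  obtain ⟨n, hn⟩ : ∃ n, n = td - ta + 1 := ⟨_, rfl⟩
  have hncast : ((td - ta : ℕ) : ℝ) + 1 = (n : ℝ) := by rw [hn]; push_cast; ring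
  rw [hncast]
  have hn1 : 1 ≤ n := by omega
  have hNr : (1:ℝ) ≤ n := by exact_mod_cast hn1
  obtain ⟨g, hg1, hg2⟩ := abs_ineq (QQA L N l ta td w₀)
    (fun c => (tm c.1 c.2.1 c.2.2, c.2.1, c.2.2)) rf (VVA L N l ta td w₀)
    (fun c hc => by
      rw [vv_mem_QQ] at hc ⊢
      exact vv_tm h_TM hlA hlB hc)
    (fun c hc => by
      rw [vv_mem_QQ] at hc
      simp only
      rw [tm_tm hc.2.1.le])
    (fun c hc => rfl)
    (fun c hc => by
      rw [vv_mem_QQ] at hc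
      exact rf_tm_left hc.2.1.le)
    (fun c hc => by
      rw [vv_mem_QQ] at hc
      rw [vv_mem_VV]
      exact hc.2.2.1)
    (fun v hv => by
      rw [vv_mem_VV] at hv
      obtain ⟨w, j, hc, hf, hb, rfl⟩ := hv
      exact ⟨w, j, vv_mem_QQ.mpr (vv_diag hc hf hb), rfl⟩)
    (fun c hc c' hc' h1 h2 => by
      have h3 : c.2.1 = c'.2.1 := by rw [h2]
      rw [h3] at h1
      have h4 := congrArg (fun v => rf v c'.2.1) h1
      simp only [rf_rf] at h4
      exact Prod.ext h4 h2)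
    ((n:ℝ) ^ 2)
    (fun v hv => by
      have hinj : Set.InjOn (fun c : Wk × ℕ × ℕ => c.2)
          ((QQA L N l ta td w₀).filter (fun c => rf c.1 c.2.1 = v) : Set (Wk × ℕ × ℕ)) := by
        intro c hc c' hc' h2
        simp only [Finset.coe_filter, Set.mem_ofPred_eq] at hc hc'
        have h2' : c.2 = c'.2 := h2
        have h3 : c.2.1 = c'.2.1 := by rw [h2']
        have h1 := hc.2.trans hc'.2.symm
        rw [h3] at h1
        have h4 := congrArg (fun v => rf v c'.2.1) h1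
        simp only [rf_rf] at h4
        exact Prod.ext h4 h2'
      have hsub : ((QQA L N l ta td w₀).filter (fun c => rf c.1 c.2.1 = v)).image (fun c => c.2) ⊆
          Finset.Icc ta td ×ˢ Finset.Icc ta td := by
        intro p hp
        rw [Finset.mem_image] at hp
        obtain ⟨c, hc, rfl⟩ := hp
        rw [Finset.mem_filter, vv_mem_QQ] at hc
        rw [Finset.mem_product, Finset.mem_Icc, Finset.mem_Icc]
        exact ⟨⟨hc.1.2.1.gf.h1, hc.1.2.1.gf.h2⟩, hc.1.2.1.gb.h1, hc.1.2.1.gb.h2⟩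
      have := Finset.card_le_card hsub
      rw [Finset.card_image_of_injOn hinj, Finset.card_product, Nat.card_Icc,
        show td + 1 - ta = n by omega] at this
      rw [sq]
      exact_mod_cast this)
  refine hg2.trans ?_
  rw [vv_sum_QQ]
  have hterm : ∀ w ∈ WWA L N l ta td w₀, ∑ p ∈ RRA L N l ta td w₀ w,
      g (rf (w, p).1 (w, p).2.1) * g (rf (w, p).1 (w, p).2.2) /
        ((∑ c' ∈ (QQA L N l ta td w₀).filter (fun c' => c'.1 = (w, p).1 ∧ c'.2.1 = (w, p).2.1),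
            g (rf c'.1 c'.2.2)) *
         (∑ c' ∈ (QQA L N l ta td w₀).filter (fun c' => c'.1 = (w, p).1 ∧ c'.2.2 = (w, p).2.2),
            g (rf c'.1 c'.2.1))) ≤
      4 * (Nat.log 2 l.toNat + 2) ^ 2 * (1 + 3 * Real.log n) := by
    intro w hw
    obtain ⟨col, hcol⟩ := h_COV N l ta td w₀ w
    have hY := vv_Y_le (RRA L N l ta td w₀ w) col (fun t => g (rf w t)) (fun t => g (rf w t)) ta n
      ((n:ℝ) ^ 2)
      (by nlinarith [one_le_pow₀ hNr (n := 2)])
      (fun p hp => by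
        rw [vv_mem_RR] at hp
        have h1 := hp.2.1.gf.h1
        have h2 := hp.2.1.gb.h1
        have h3 := hp.2.1.gf.h2
        exact ⟨h1, h2, by omega⟩)
      (fun p hp => by rw [vv_mem_RR] at hp; exact hg1 _ (vv_mem_VV.mpr hp.2.2.1))
      (fun p hp => by rw [vv_mem_RR] at hp; exact (hg1 _ (vv_mem_VV.mpr hp.2.2.2)).1)
      hcol
    refine le_trans (le_of_eq ?_) (hY.trans (le_of_eq ?_))
    · apply Finset.sum_congr rfl
      intro p _
      simp only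
      rw [vv_sum_left (fun c' => g (rf c'.1 c'.2.2)),
        vv_sum_right (fun c' => g (rf c'.1 c'.2.1))]
    · have hl : Real.log ((n:ℝ) * (n:ℝ) ^ 2) = 3 * Real.log n := by
        rw [← pow_succ', Real.log_pow]; norm_num
      rw [hl]
      simp only [Fintype.card_prod, Fintype.card_fin, Fintype.card_bool]
      push_cast
      ring
  refine (Finset.sum_le_sum hterm).trans (le_of_eq ?_)
  rw [Finset.sum_const, nsmul_eq_mul]
  ring

end Pool.Agent.H979R2.NP
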