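import Pool.Agent.H979R2.NP.Stubs

/-!
WID: width of walks with pivot pairs.
-/

set_option autoImplicit false

namespace Pool.Agent.H979R2.NP

open Pool.Agent.H977R3 (Wk rf tm LS CT rf_le rf_gt tm_le tm_mid tm_gt rf_rf rf_tm_left rf_tm_right
  tm_tm tm_self)

theorem p_WID (L : PL) : St_WID L := by
  classical
  intro N l ta td w₀ w hw
  unfold WWA at hw
  rw [Finset.mem_filter] at hw
  obtain ⟨-, t, t', hcl, hpq, -, -⟩ := hw
  refine ⟨hcl, ?_⟩
  have h1 := hpq.gf.win
  have h2 := hpq.gb.win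
  have h3 := hpq.gf.mx ta hpq.gf.h1
  rcases Nat.eq_or_lt_of_le hpq.le with h | h
  · subst h
    omega
  · have h4 := hpq.c1 t' h le_rfl
    omega

end Pool.Agent.H979R2.NP
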