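import Pool.Agent.H979R2.NP.TM
import Pool.Agent.H979R2.NP.COV
import Pool.Agent.H979R2.NP.VV
import Pool.Agent.H979R2.NP.WID
import Pool.Agent.H979R2.NP.T7
import Pool.Agent.H979R2.NP.MST
import Pool.Agent.H979R2.NP.JA
import Pool.Agent.H979R2.NP.JB
import Pool.Agent.H979R2.NP.JP
import Pool.Agent.H979R2.NP.UNF
import Pool.Agent.H979R2.NP.INV
import Pool.Agent.H979R2.NP.ONE
import Pool.Agent.H979R2.NP.UNI
import Pool.Agent.H979R2.NP.SQR
import Pool.Agent.H979R2.NP.DIA

/-!
# Planar input: assembly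
-/

set_option autoImplicit false

namespace Pool.Agent.H979R2.NP

/-- closed windows are expensive, for every planar lattice with vertical mirrors -/
theorem uni (L : PL) : St_UNI L := by
  have h7 : St_T7 L := p_T7 L (p_VV L (p_TM L) (p_COV L)) (p_WID L)
  have hP : St_JP L := p_JP L (p_JA L h7 (p_MST L)) (p_JB L h7 (p_MST L))
  exact p_UNI L (p_ONE L (p_UNF L) (p_INV L) hP)

end Pool.Agent.H979R2.NP
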