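import Pool.Agent.H979R2.NP.Defs

/-!
# Planar input for the almost power law: statements (as propositions)
-/

set_option autoImplicit false

namespace Pool.Agent.H979R2.NP

open Pool.Agent.H977R3 (Wk rf tm LS CT rf_le rf_gt tm_le tm_mid tm_gt rf_rf rf_tm_left rf_tm_right
  tm_tm tm_self)
open Pool.Agent.H725R2.SB (NC BT Light IsCut Cut)

/-- TM: T-moves preserve the class and the pairs of pivots. -/
def St_TM (L : PL) : Prop := ∀ (N : ℕ) (l : ℤ) (ta td t t' : ℕ) (w₀ w : Wk),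
  l ≤ (w₀ ta).1 → l ≤ (w₀ N).1 - (w₀ td).1 → Cl L N ta td w₀ w → PQA L.up N l ta td w t t' →
    Cl L N ta td w₀ (tm w t t') ∧ PQA L.up N l ta td (tm w t t') t t'

/-- COV: the relation between pivots is a union of few nested relations. -/
def St_COV (L : PL) : Prop := ∀ (N : ℕ) (l : ℤ) (ta td : ℕ) (w₀ w : Wk),
  ∃ col : ℕ × ℕ → Fin (Nat.log 2 l.toNat + 2) × Fin (Nat.log 2 l.toNat + 2) × Bool × Bool,
      ∀ p ∈ RRA L N l ta td w₀ w, ∀ q ∈ RRA L N l ta td w₀ w, col p = col q →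
      (∀ s, (p.1, s) ∈ RRA L N l ta td w₀ w → col (p.1, s) = col p →
        (q.1, s) ∈ RRA L N l ta td w₀ w ∧ col (q.1, s) = col p) ∨
      (∀ s, (q.1, s) ∈ RRA L N l ta td w₀ w → col (q.1, s) = col p →
        (p.1, s) ∈ RRA L N l ta td w₀ w ∧ col (p.1, s) = col p)

/-- VV: the number of folded objects in one class. -/
def St_VV (L : PL) : Prop := ∀ (N : ℕ) (l : ℤ) (ta td : ℕ) (w₀ : Wk),
  l ≤ (w₀ ta).1 → l ≤ (w₀ N).1 - (w₀ td).1 → ta ≤ td →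
  ((VVA L N l ta td w₀).card : ℝ) ≤ 4 * ((Nat.log 2 l.toNat : ℝ) + 2) ^ 2 *
    (1 + 3 * Real.log (((td - ta : ℕ) : ℝ) + 1)) * ((WWA L N l ta td w₀).card : ℝ)

/-- WID: walks with pairs of pivots are narrow. -/
def St_WID (L : PL) : Prop := ∀ (N : ℕ) (l : ℤ) (ta td : ℕ) (w₀ w : Wk),
  w ∈ WWA L N l ta td w₀ → Cl L N ta td w₀ w ∧ (w td).1 < (w ta).1 + 3 * l

/-- `j` is a foldable cut time of the walk `w` in the class of `w₀`. -/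
structure FM (L : PL) (N : ℕ) (l : ℤ) (ta td : ℕ) (w₀ w : Wk) (j : ℕ) : Prop where
  cl : Cl L N ta td w₀ w
  h1 : ta ≤ j
  h2 : j ≤ td
  cj : CT N w j
  w1 : (w j).1 - (w ta).1 < l
  w2 : (w td).1 - (w j).1 < l
  ls : LS N ta td (rf w j)

/-- T7: the number of foldable cut times in one class. -/
def St_T7 (L : PL) : Prop := ∀ (N : ℕ) (l : ℤ) (ta td : ℕ) (w₀ : Wk) (S : Finset (Wk × ℕ))
  (W : Finset Wk), 1 ≤ l → l ≤ (w₀ ta).1 → l ≤ (w₀ N).1 - (w₀ td).1 → ta ≤ td →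
  (∀ c ∈ S, FM L N l ta td w₀ c.1 c.2) →
  (∀ w, Cl L N ta td w₀ w → (w td).1 < (w ta).1 + 3 * l → w ∈ W) →
  (S.card : ℝ) ≤ Yb l (td - ta) * (W.card : ℝ)

/-- MST: stability of the marks in a class (all parts are elementary). -/
structure MST (L : PL) (N ta td : ℕ) (w₀ w : Wk) : Prop where
  /-- cut times before `ta` -/
  m1 : ∀ t, t ≤ ta → (CT N w t ↔ CT N w₀ t)
  /-- cut times after `td` -/
  m2 : ∀ t, td ≤ t → (CT N w t ↔ CT N w₀ t)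
  m3 : ∀ x, x ≤ (w₀ ta).1 → fc N w x = fc N w₀ x ∧ fc N w₀ x ≤ ta
  m4 : ∀ x, (w₀ td).1 ≤ x →
    lc N w (x + ((w td).1 - (w₀ td).1)) = lc N w₀ x ∧ td ≤ lc N w₀ x
  sym : Cl L N ta td w w₀
  eq : ClF L N ta td w = ClF L N ta td w₀

def St_MST (L : PL) : Prop := ∀ (N ta td : ℕ) (w₀ w : Wk), Cl L N ta td w₀ w →
  BrA L.adj N w₀ → CT N w₀ ta → CT N w₀ td → ta ≤ td → MST L N ta td w₀ w

/-- the property `Φ` does not depend on the part of the walk between two cut times which are not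
too low and not too high -/
def Inv (L : PL) (N : ℕ) (α D : ℤ) (Φ : Wk → Prop) : Prop :=
  ∀ (ta td : ℕ) (w w' : Wk), BrA L.adj N w → CT N w ta → CT N w td → ta ≤ td → α ≤ (w ta).1 →
    D ≤ (w N).1 - (w td).1 → Cl L N ta td w w' → Φ w → Φ w'

open scoped Classical in
/-- refoldable pairs at scale `2^j` -/
noncomputable def RF (L : PL) (N : ℕ) (r : ℤ) (τ : ℕ) (α β D : ℤ) (Φ : Wk → Prop) (j : ℕ) :
    Finset (Wk × ℕ × ℕ) :=
  (BrF L N ×ˢ (Finset.range N ×ˢ Finset.range N)).filter (fun c => Φ c.1 ∧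
    Rp L N r τ α β D c.1 c.2.1 c.2.2 ∧ (2 : ℤ) ^ j ≤ (c.1 c.2.2).1 - (c.1 c.2.1).1 ∧
    (c.1 c.2.2).1 - (c.1 c.2.1).1 < 2 ^ (j + 1))

open scoped Classical in
/-- objects with one mark -/
noncomputable def OA (L : PL) (N : ℕ) (r : ℤ) (τ : ℕ) (α β D : ℤ) (Φ : Wk → Prop) (j : ℕ) :
    Finset (Wk × ℕ) :=
  (BrF L N ×ˢ Finset.range N).filter (fun c => Φ c.1 ∧ Ob L N r τ α β D j c.1 c.2)

open scoped Classical in
/-- walks without mark -/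
noncomputable def XF (L : PL) (N : ℕ) (Φ : Wk → Prop) : Finset Wk := (BrF L N).filter Φ

/-- JA: first decoding step. -/
def St_JA (L : PL) : Prop := ∀ (N : ℕ) (r : ℤ) (τ : ℕ) (α β D : ℤ) (Φ : Wk → Prop) (j : ℕ),
  1 ≤ r → 2 * r ≤ α → 2 * r ≤ D → Inv L N α D Φ →
  ((RF L N r τ α β D Φ j).card : ℝ) ≤
    17 * Yb (2 * r) τ * ((OA L N r τ α β D Φ j).card : ℝ)

/-- JB: second decoding step. -/
def St_JB (L : PL) : Prop := ∀ (N : ℕ) (r : ℤ) (τ : ℕ) (α β D : ℤ) (Φ : Wk → Prop) (j : ℕ),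
  1 ≤ r → 2 * r ≤ α → 2 * r ≤ D → (2 : ℤ) ^ j ≤ r → Inv L N α D Φ →
  ((OA L N r τ α β D Φ j).card : ℝ) ≤ 1377 * Yb (2 * r) τ * ((XF L N Φ).card : ℝ)

/-- JP: the number of refoldable pairs. -/
def St_JP (L : PL) : Prop := ∀ (N : ℕ) (r : ℤ) (τ : ℕ) (α β D : ℤ) (Φ : Wk → Prop)
  (R : Finset (Wk × ℕ × ℕ)), 1 ≤ r → 2 * r ≤ α → 2 * r ≤ D → Inv L N α D Φ →
  (∀ c ∈ R, Φ c.1 ∧ Rp L N r τ α β D c.1 c.2.1 c.2.2) →
  (R.card : ℝ) ≤ 10 ^ 6 * ((Nat.log 2 r.toNat : ℝ) + 1) * (Yb (2 * r) τ) ^ 2 *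
    ((XF L N Φ).card : ℝ)

/-- UNF: unfolding one backtrack of a closed window gives a refoldable pair. -/
def St_UNF (L : PL) : Prop := ∀ (N r w τ i : ℕ) (I : Finset ℕ) (ξ : Wk) (p : ℤ) (t t' : ℕ),
  1 ≤ r → 400 * r ≤ w → 1 ≤ i → (∀ j ∈ I, j < i) → ξ ∈ XI L N r w τ (insert i I) →
  4 * (w : ℤ) * i + w < p → p ≤ 4 * (w : ℤ) * i + 3 * w → BT (lv ξ) N p t t' →
  lv ξ t - lv ξ t' < r →
  tm ξ t t' ∈ XI L N r w τ I ∧
    Rp L N r τ (4 * (w : ℤ) * i) (4 * (w : ℤ) * (i + 1)) (4 * (w : ℤ)) (tm ξ t t') t t'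

/-- INV: closed windows below `α` do not depend on the part of the walk above `α`. -/
def St_INV (L : PL) : Prop := ∀ (N r w τ i : ℕ) (I : Finset ℕ), 1 ≤ r → r ≤ w →
  (∀ j ∈ I, j < i) →
  Inv L N (4 * (w : ℤ) * i) (4 * (w : ℤ)) (fun ξ => ∀ j ∈ I, NCd (lv ξ) N r w τ j)

/-- ONE: one decoding step for closed windows. -/
def St_ONE (L : PL) : Prop := ∀ (N r w τ i : ℕ) (I : Finset ℕ), 1 ≤ r → 400 * r ≤ w → 1 ≤ i →
  (∀ j ∈ I, j < i) →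
  ((XI L N r w τ (insert i I)).card : ℝ) * w ≤ D0 r τ * ((XI L N r w τ I).card : ℝ)

open scoped Classical in
/-- UNI: union over the sets of windows. -/
def St_UNI (L : PL) : Prop := ∀ (N r w τ m k : ℕ), 1 ≤ r → 400 * r ≤ w →
  (((BrF L N).filter (fun u => ∃ J ⊆ Finset.range m, k ≤ J.card ∧
    ∀ j ∈ J, NCd (lv u) N r w τ j)).card : ℝ) * (w : ℝ) ^ k ≤
  2 ^ m * (D0 r τ) ^ k * ((BrF L N).card : ℝ)

end Pool.Agent.H979R2.NP
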