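import Pool.Agent.H979R2.NP.Stubs

/-!
TM: T-moves preserve the class and the pairs of pivots.
-/

set_option autoImplicit false

namespace Pool.Agent.H979R2.NP

open Pool.Agent.H977R3 (Wk rf tm LS CT rf_le rf_gt tm_le tm_mid tm_gt rf_rf rf_tm_left rf_tm_right
  tm_tm tm_self)

theorem p_TM (L : PL) : St_TM L := by
  intro N l ta td t t' w₀ w hlA hlB hcl h
  rcases Nat.eq_or_lt_of_le h.le with h0 | htt
  · subst h0
    rw [tm_self]
    exact ⟨hcl, h⟩
  have hadm := h
  obtain ⟨gf, gb, -, hc1, hc2⟩ := h
  obtain ⟨br, cta, ctd, pre, suf⟩ := hcl
  have hbr0 := br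
  have hcta0 := cta
  have hctd0 := ctd
  obtain ⟨saw, bpos, ble⟩ := br
  obtain ⟨ctaN, cta1, cta2⟩ := cta
  obtain ⟨ctdN, ctd1, ctd2⟩ := ctd
  have hlA' : l ≤ (w ta).1 := by rw [pre ta le_rfl]; exact hlA
  have hlB' : l ≤ (w N).1 - (w td).1 := by
    have := suf N ctdN.le
    have h1 := congrArg Prod.fst this
    simp only at h1
    omega
  have hpl := fun hop => L.planar N l ta td t t' w hbr0 hcta0 hctd0 hlA' hlB' hadm htt hop
  have g1 := gf.h1
  have g2 := gf.h2
  have g1' := gb.h1
  have g2' := gb.h2
  have hw0 : (w 0).1 = 0 := by rw [saw.zero]
  have ha0 : 0 ≤ (w ta).1 := by have := cta1 0 (by omega); omega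
  -- values of the new walk
  obtain ⟨v, hv⟩ : ∃ v, v = tm w t t' := ⟨_, rfl⟩
  have vle : ∀ i, i ≤ t → v i = w i := fun i hi => by rw [hv, tm_le hi]
  have vmid : ∀ i, t < i → i ≤ t' → v i = (2 * (w t).1 - (w i).1, (w i).2) :=
    fun i h1 h2 => by rw [hv, tm_mid h1 h2]
  have vgt : ∀ i, t' < i → v i = ((w i).1 - 2 * ((w t').1 - (w t).1), (w i).2) :=
    fun i h1 => by rw [hv, tm_gt (by omega) h1]
  have vtd : (v td).1 = (w td).1 - 2 * ((w t').1 - (w t).1) := by
    rcases Nat.eq_or_lt_of_le g2' with h1 | h1
    · rw [← h1, vmid t' htt le_rfl]; simp only; ring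
    · rw [vgt td h1]
  have vN : (v N).1 = (w N).1 - 2 * ((w t').1 - (w t).1) := by rw [vgt N (by omega)]
  have hdX : (w td).1 ≤ (w N).1 := ble td (by omega)
  have hc2t := hc2 t le_rfl htt.le
  have hc1t := hc1 t' htt le_rfl
  have hmn1 := gb.mn (t' + 1) (by omega)
  have hsaw : SawA L.adj N v := by
    constructor
    · rw [vle 0 (by omega)]; exact saw.zero
    · intro i hi
      have ha := saw.adj i hi
      rcases lt_trichotomy i t with h1 | h1 | h1
      · rw [vle i (by omega), vle (i + 1) (by omega)]; exact ha
      · subst h1
        rw [vle i (by omega), vmid (i + 1) (by omega) (by omega)]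
        have := L.mir _ _ (2 * (w i).1) ha
        rw [show ((2 * (w i).1 - (w i).1, (w i).2) : ℤ × ℤ) = w i from by ext <;> simp; ring] at this
        exact this
      · rcases lt_trichotomy i t' with h2 | h2 | h2
        · rw [vmid i (by omega) (by omega), vmid (i + 1) (by omega) (by omega)]
          exact L.mir _ _ (2 * (w t).1) ha
        · subst h2
          rw [vmid i (by omega) (by omega), vgt (i + 1) (by omega)]
          have := L.tra _ _ (2 * (w t).1 - 2 * (w i).1) ha
          rw [show (((w i).1 + (2 * (w t).1 - 2 * (w i).1), (w i).2) : ℤ × ℤ) =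
            (2 * (w t).1 - (w i).1, (w i).2) from by ext <;> simp; ring,
            show (((w (i + 1)).1 + (2 * (w t).1 - 2 * (w i).1), (w (i + 1)).2) : ℤ × ℤ) =
            ((w (i + 1)).1 - 2 * ((w i).1 - (w t).1), (w (i + 1)).2) from by ext <;> simp; ring]
            at this
          exact this
        · rw [vgt i (by omega), vgt (i + 1) (by omega)]
          have := L.tra _ _ (-(2 * ((w t').1 - (w t).1))) ha
          simpa only [← sub_eq_add_neg] using this
    · have main : ∀ i k, i < k → k ≤ N → v i ≠ v k := by
        intro i k hik hk heq
        rcases Nat.lt_or_ge t i with hi | hi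
        · rcases Nat.lt_or_ge t' i with hi' | hi'
          · rw [vgt i hi', vgt k (by omega), Prod.mk.injEq] at heq
            have : w i = w k := by ext <;> omega
            have := saw.inj i k (by omega) hk this
            omega
          · rcases Nat.lt_or_ge t' k with hk' | hk'
            · rw [vmid i hi hi', vgt k hk', Prod.mk.injEq] at heq
              refine gb.ls i k hik hk (Or.inl (by omega)) ?_
              rw [rf_le hi', rf_gt hk']
              ext <;> simp only <;> omega
            · rw [vmid i hi hi', vmid k (by omega) hk', Prod.mk.injEq] at heq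
              have : w i = w k := by ext <;> omega
              have := saw.inj i k (by omega) hk this
              omega
        · rcases Nat.lt_or_ge t k with hk1 | hk1
          · rcases Nat.lt_or_ge t' k with hk' | hk'
            · rw [vle i hi, vgt k hk'] at heq
              rcases lt_or_ge (w t).1 (w t').1 with hop | hop
              · exact hpl hop i k hi hk' hk heq
              · have h1 := gf.mx i hi
                have h2 := gb.mn k hk'
                have h3 := congrArg Prod.fst heq
                simp only at h3
                omega
            · rw [vle i hi, vmid k hk1 hk'] at heq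
              refine gf.ls i k hik hk (Or.inr (by omega)) ?_
              rw [rf_le hi, rf_gt hk1, heq]
          · rw [vle i hi, vle k hk1] at heq
            have := saw.inj i k (by omega) hk heq
            omega
      intro i k hi hk heq
      rcases lt_trichotomy i k with h | h | h
      · exact absurd heq (main i k h hk)
      · exact h
      · exact absurd heq.symm (main k i h hi)
    · intro i hi
      rw [vgt i (by omega), vgt N (by omega), saw.const i hi]
  have hbr : BrA L.adj N v := by
    refine ⟨hsaw, ?_, ?_⟩
    · intro i hi1 hi2
      rcases le_or_gt i t with h1 | h1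
      · rw [vle i h1]; exact bpos i hi1 hi2
      · rcases le_or_gt i t' with h2 | h2
        · rw [vmid i h1 h2]
          have := hc1 i h1 h2
          simp only
          omega
        · rw [vgt i h2]
          have := gb.mn i h2
          simp only
          omega
    · intro i hi
      rw [vN]
      rcases le_or_gt i t with h1 | h1
      · rw [vle i h1]
        have := gf.mx i h1
        omega
      · rcases le_or_gt i t' with h2 | h2
        · rw [vmid i h1 h2]
          have := hc2 i h1.le h2
          simp only
          omega
        · rw [vgt i h2]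
          have := ble i hi
          simp only
          omega
  have hvcta : CT N v ta := by
    refine ⟨ctaN, ?_, ?_⟩
    · intro i hi
      rw [vle i (by omega), vle ta g1]
      exact cta1 i hi
    · intro i hi
      rw [vle ta g1]
      rcases le_or_gt i t with h1 | h1
      · rw [vle i h1]; exact cta2 i hi
      · rcases le_or_gt i t' with h2 | h2
        · rw [vmid i h1 h2]
          have := hc1 i h1 h2
          simp only
          omega
        · rw [vgt i h2]
          have := gb.mn i h2
          simp only
          omega
  have hvctd : CT N v td := by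
    refine ⟨ctdN, ?_, ?_⟩
    · intro i hi
      rw [vtd]
      rcases le_or_gt i t with h1 | h1
      · rw [vle i h1]
        have := gf.mx i h1
        omega
      · rcases le_or_gt i t' with h2 | h2
        · rw [vmid i h1 h2]
          have := hc2 i h1.le h2
          simp only
          omega
        · rw [vgt i h2]
          have := ctd1 i hi
          simp only
          omega
    · intro i hi
      rw [vtd, vgt i (by omega)]
      have := ctd2 i hi
      simp only
      omega
  have hcl : Cl L N ta td w₀ v := by
    refine ⟨hbr, hvcta, hvctd, ?_, ?_⟩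
    · intro i hi
      rw [vle i (by omega)]
      exact pre i hi
    · intro i hi
      have hs := suf i hi
      have hs1 := congrArg Prod.fst hs
      have hs2 := congrArg Prod.snd hs
      simp only at hs1 hs2
      rw [vtd]
      rcases le_or_gt i t' with h2 | h2
      · have e1 : i = t' := by omega
        have e2 : td = i := by omega
        subst e1
        rw [vmid i htt le_rfl]
        ext
        · simp only
          rw [e2] at *
          omega
        · simp only
          exact hs2
      · rw [vgt i h2]
        ext
        · simp only
          omega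
        · simp only
          exact hs2
  have hup := L.up_tm w t t' htt gf.up gb.up
  rw [← hv] at hup ⊢
  refine ⟨hcl, ⟨g1, g2, hup.1, ?_, ?_, ?_⟩, ⟨g1', g2', hup.2, ?_, ?_, ?_⟩, htt.le, ?_, ?_⟩
  · intro i hi
    rw [vle t le_rfl, vle i hi]
    exact gf.mx i hi
  · rw [vle t le_rfl, vle ta g1]; exact gf.win
  · rw [hv, rf_tm_left htt.le]; exact gb.ls
  · intro i hi
    rw [vmid t' htt le_rfl, vgt i hi]
    have := gb.mn i hi
    simp only
    omega
  · rw [vtd, vmid t' htt le_rfl]
    have := gb.win
    simp only
    omega
  · rw [hv, rf_tm_right htt.le]; exact gf.ls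
  · intro i h1 h2
    rw [vmid i h1 h2, vle t le_rfl, vle ta g1]
    have := cta2 i (by omega)
    simp only
    omega
  · intro i h1 h2
    rw [vmid t' htt le_rfl, vtd]
    rcases Nat.eq_or_lt_of_le h1 with h3 | h3
    · subst h3
      rw [vle t le_rfl]
      have := ctd1 t (by omega)
      simp only
      omega
    · rw [vmid i h3 h2]
      have := ctd1 i (by omega)
      simp only
      omega

end Pool.Agent.H979R2.NP
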